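import Pool.Agent.Q175.EX.Flip

/-!
# Project EX: type E6
-/

set_option autoImplicit false

namespace Q175.EX

open Matrix

/-- the rows are twice the coordinates number `1, 2, 3, 4, 5, 8` of `R^8` on the simple roots of
`E_6` (Bourbaki) -/
def C6 : Matrix (Fin 6) (Fin 6) ℤ :=
  !![ 1, 2, -2,  0,  0,  0;
     -1, 2,  2, -2,  0,  0;
     -1, 0,  0,  2, -2,  0;
     -1, 0,  0,  0,  2, -2;
     -1, 0,  0,  0,  0,  2;
      1, 0,  0,  0,  0,  0]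

def w6 : Fin 6 → ℤ := ![1, 1, 1, 1, 1, 3]

def L6 : Matrix (Fin 6) (Fin 6) ℤ :=
  !![0, 0, 0, 0, 0, 12; 3, 3, 3, 3, 3, 9; -3, 3, 3, 3, 3, 15; 0, 0, 6, 6, 6, 18; 0, 0, 0, 6, 6, 12; 0, 0, 0, 0, 6, 6]

def be6 : Matrix (Fin 4) (Fin 6) ℤ :=
  !![0, 1, 0, 1, 1, 1; 0, 1, 1, 1, 1, 1; 0, 1, 1, 2, 1, 1; 0, 1, 1, 2, 2, 1]

def ga6 : Matrix (Fin 4) (Fin 6) ℤ :=
  !![0, 0, -1, -1, -1, -1; 0, 0, 0, -1, -1, -1; 0, 0, 0, 0, -1, -1; 0, 0, 0, 0, 0, -1]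

theorem L6_C6 : L6 * C6 = (12 : ℤ) • 1 := by decide +kernel

theorem w6_pos : ∀ a, 0 < w6 a := by decide +kernel

theorem A6_C6 : ∀ i j, 4 * (Uc CartanMatrix.E₆ i j + Uc CartanMatrix.E₆ j i) =
    ∑ a, w6 a * (C6 a i * C6 a j) := by decide +kernel

theorem par6 : ∀ i a b, Even (C6 a i + C6 b i) := by decide +kernel

theorem be6_C : ∀ j : Fin 4, C6 *ᵥ (be6 j) = Pi.single j.castSucc.castSucc 2 + Pi.single 4 2 := by
  decide +kernel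

theorem ga6_C : ∀ j : Fin 4, C6 *ᵥ (ga6 j) = Pi.single j.castSucc.castSucc 2 - Pi.single 4 2 := by
  decide +kernel

theorem be6_rt : ∀ j : Fin 4, B (Uc CartanMatrix.E₆) (be6 j) (be6 j) = 1 := by
  decide +kernel

theorem ga6_rt : ∀ j : Fin 4, B (Uc CartanMatrix.E₆) (ga6 j) (ga6 j) = 1 := by
  decide +kernel

theorem be6_l : ∀ j : Fin 4, C6 5 ⬝ᵥ be6 j = 0 ∧ C6 5 ⬝ᵥ ga6 j = 0 := by
  decide +kernel

theorem finite6 : Finite (Rt (Uc CartanMatrix.E₆)) :=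
  finite_rt (inj_of L6 12 (by norm_num) L6_C6) (ω := w6) w6_pos
    (fun x => Sf_of A6_C6 x x)

theorem aw6 : ∀ j : Fin 4, j.castSucc.castSucc ≠ (4 : Fin 6) ∧ w6 j.castSucc.castSucc = 1 := by
  decide

theorem fl6 {O : Type} [CommRing O] (j : Fin 4)
    {Γ : Subgroup (LA O (Uc CartanMatrix.E₆) ≃ₗ[O] LA O (Uc CartanMatrix.E₆))} {S : Fin 6 → Prop}
    (h4 : S 4) (h1 : (rf (O := O) ⟨be6 j, be6_rt j⟩).toE ∈ Γ)
    (h2 : (rf (O := O) ⟨ga6 j, ga6_rt j⟩).toE ∈ Γ) :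
    Fl O (Uc CartanMatrix.E₆) C6 w6 Γ S j.castSucc.castSucc :=
  Or.inl ⟨⟨be6 j, be6_rt j⟩, ⟨ga6 j, ga6_rt j⟩, 4, h4, (aw6 j).1, be6_C j, ga6_C j,
    (aw6 j).2, rfl, mul_mem h1 h2⟩

/-- type `E_6` -/
theorem e6 : (∀ (O : Type) [CommRing O],
      Rig O (Uc CartanMatrix.E₆) C6 5 (Ga O (Uc CartanMatrix.E₆)) (-1) 16 ∧
      ∀ u : Oˣ, u * u = -1 → Rig O (Uc CartanMatrix.E₆) C6 5 (Ga O (Uc CartanMatrix.E₆)) u 32) ∧
    ∀ (O : Type) [CommRing O] [StarRing O] (η u : Oˣ), u * u = -1 → star (u : O) * u = 1 →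
      Rig O (Uc CartanMatrix.E₆) C6 5 (Ug O (Uc CartanMatrix.E₆) η (C6 5)) u 32 := by
  have := finite6
  have hp : ∀ j : Fin 4, j.castSucc.castSucc ≠ (5 : Fin 6) := by decide
  have h4 : (4 : Fin 6) ≠ 5 ∧ ∀ k : Fin 4, k.castSucc.castSucc ≠ (4 : Fin 6) := by decide
  have hi : Function.Injective fun j : Fin 4 => (j.castSucc.castSucc : Fin 6) := by decide
  refine ⟨fun O _ => ⟨?_, fun u hu => ?_⟩, fun O _ _ η u hu hs => ?_⟩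
  · exact gen (wt := w6) w6_pos L6 12 (by norm_num) L6_C6 A6_C6 par6 5
      (fun j : Fin 4 => j.castSucc.castSucc) hp hi _ le_rfl (-1) (Or.inl rfl) (Mo.toE_mem _)
      (fun _ _ _ => Mo.toE_mem _) (fun _ => Mo.toE_mem _)
      (fun j => fl6 j h4 (Mo.toE_mem _) (Mo.toE_mem _)) 16 (Or.inl ⟨rfl, by norm_num⟩)
  · exact gen (wt := w6) w6_pos L6 12 (by norm_num) L6_C6 A6_C6 par6 5
      (fun j : Fin 4 => j.castSucc.castSucc) hp hi _ le_rfl u (Or.inr hu) (Mo.toE_mem _)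
      (fun _ _ _ => Mo.toE_mem _) (fun _ => Mo.toE_mem _)
      (fun j => fl6 j h4 (Mo.toE_mem _) (Mo.toE_mem _)) 32 (Or.inr ⟨hu, by norm_num⟩)
  · have h1 : star ((-1 : Oˣ) : O) * ((-1 : Oˣ) : O) = 1 := by simp
    exact gen (wt := w6) w6_pos L6 12 (by norm_num) L6_C6 A6_C6 par6 5
      (fun j : Fin 4 => j.castSucc.castSucc) hp hi _ (Ug_le _ _) u (Or.inr hu)
      (tor_mem_Ug _ _ h1 _ _) (fun _ _ _ => tor_mem_Ug _ _ h1 _ _)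
      (fun _ => tor_mem_Ug _ _ hs _ _)
      (fun j => fl6 j h4 (rf_mem_Ug _ _ _ (be6_l j).1) (rf_mem_Ug _ _ _ (be6_l j).2)) 32
      (Or.inr ⟨hu, by norm_num⟩)

end Q175.EX
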