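import Pool.Agent.Q175.EX.Uni

/-!
# Project EX: twisted unitary groups
-/

set_option autoImplicit false

namespace Q175.EX

open Matrix

section

variable {O : Type} [CommRing O] {n : ℕ} {U : Matrix (Fin n) (Fin n) ℤ}

theorem Mo.lin_comp (g h : Mo O U) (v : Fin n → O) (i : Fin n) :
    g.lin (h.lin v) i = ∑ k, (((g.W * h.W) i k : ℤ) : O) * v k := by
  unfold Mo.lin
  simp_rw [Finset.mul_sum]
  rw [Finset.sum_comm]
  refine Finset.sum_congr rfl fun k _ => ?_
  rw [Matrix.mul_apply, Int.cast_sum, Finset.sum_mul]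
  refine Finset.sum_congr rfl fun j _ => ?_
  push_cast
  ring

/-- composition of two commuting monomial automorphisms -/
def Mo.comp (g h : Mo O U) (hW : g.W * h.W = h.W * g.W) : Mo O U where
  W := g.W * h.W
  inv := by
    calc g.W * h.W * (g.W * h.W) = g.W * (h.W * g.W) * h.W := by noncomm_ring
      _ = (g.W * g.W) * (h.W * h.W) := by rw [← hW]; noncomm_ring
      _ = 1 := by rw [g.inv, h.inv, one_mul]
  iso := fun x y => by
    rw [← Matrix.mulVec_mulVec, ← Matrix.mulVec_mulVec, g.iso, h.iso]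
  c := fun x => h.c x * g.c (h.W *ᵥ x)
  coc := fun x y => by
    have h1 := h.coc x y
    have h2 := g.coc (h.W *ᵥ x) (h.W *ᵥ y)
    rw [← Matrix.mulVec_mulVec, ← Matrix.mulVec_mulVec, Matrix.mulVec_add, Units.val_mul,
      Units.val_mul, Units.val_mul]
    calc (h.c (x + y) : O) * g.c (h.W *ᵥ x + h.W *ᵥ y) * sg (B U x y)
        = (h.c (x + y) * sg (B U x y)) * g.c (h.W *ᵥ x + h.W *ᵥ y) := by ring
      _ = h.c x * h.c y * (g.c (h.W *ᵥ x + h.W *ᵥ y) * sg (B U (h.W *ᵥ x) (h.W *ᵥ y))) := by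
        rw [h1]; ring
      _ = _ := by rw [h2]; ring

theorem Mo.comp_toE (g h : Mo O U) (hW : g.W * h.W = h.W * g.W) :
    (g.comp h hW).toE = g.toE * h.toE := by
  ext1 X
  refine Prod.ext (funext fun i => ?_) (funext fun y => ?_)
  · change ∑ k, (((g.W * h.W) i k : ℤ) : O) * X.1 k = g.lin (h.lin X.1) i
    rw [Mo.lin_comp]
  · change (((g.comp h hW).c ((g.W * h.W) *ᵥ y.1) : Oˣ) : O) * X.2 ((g.comp h hW).pe y) =
      g.c (g.W *ᵥ y.1) * (h.c (h.W *ᵥ (g.W *ᵥ y.1)) * X.2 (h.pe (g.pe y)))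
    have e1 : (g.comp h hW).pe y = h.pe (g.pe y) := by
      apply Subtype.ext
      change (g.W * h.W) *ᵥ y.1 = h.W *ᵥ (g.W *ᵥ y.1)
      rw [hW, Matrix.mulVec_mulVec]
    have e2 : (g.W * h.W) *ᵥ y.1 = h.W *ᵥ (g.W *ᵥ y.1) := by
      rw [hW, Matrix.mulVec_mulVec]
    rw [e1, e2]
    change ((h.c (h.W *ᵥ (g.W *ᵥ y.1)) * g.c (h.W *ᵥ (h.W *ᵥ (g.W *ᵥ y.1))) : Oˣ) : O) * _ = _
    rw [h.WW, Units.val_mul]
    ring

/-- cochains with the same isometry agree if they agree on the simple roots -/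
theorem Mo.c_ext (g h : Mo O U) (hW : g.W = h.W)
    (hc : ∀ i, g.c (Pi.single i 1) = h.c (Pi.single i 1)) (x : Fin n → ℤ) : g.c x = h.c x := by
  have hmul : ∀ x y, g.c (x + y) * (h.c x * h.c y) = h.c (x + y) * (g.c x * g.c y) := by
    intro x y
    have h1 := g.coc x y
    have h2 := h.coc x y
    rw [hW] at h1
    apply Units.ext
    rw [Units.val_mul, Units.val_mul, Units.val_mul, Units.val_mul]
    have h3 := sg_mul_self (O := O) (B U x y)
    have h4 := sg_mul_self (O := O) (B U (h.W *ᵥ x) (h.W *ᵥ y))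
    calc (g.c (x + y) : O) * (h.c x * h.c y)
        = (g.c (x + y) * sg (B U x y)) * (h.c x * h.c y) * sg (B U x y) := by
          calc _ = (g.c (x + y) : O) * (h.c x * h.c y) * 1 := (mul_one _).symm
            _ = (g.c (x + y) : O) * (h.c x * h.c y) * (sg (B U x y) * sg (B U x y)) := by rw [h3]
            _ = _ := by ring
      _ = (h.c x * h.c y * sg (B U (h.W *ᵥ x) (h.W *ᵥ y))) * (g.c x * g.c y) * sg (B U x y) := by
          rw [h1]; ring
      _ = (h.c (x + y) * sg (B U x y)) * (g.c x * g.c y) * sg (B U x y) := by rw [← h2]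
      _ = h.c (x + y) * (g.c x * g.c y) * (sg (B U x y) * sg (B U x y)) := by ring
      _ = _ := by rw [h3, mul_one]
  let F : (Fin n → ℤ) →+ Additive Oˣ :=
    { toFun := fun x => Additive.ofMul (g.c x * (h.c x)⁻¹)
      map_zero' := by
        have h1 : g.c 0 = 1 := Units.ext g.c0
        have h2 : h.c 0 = 1 := Units.ext h.c0
        rw [h1, h2, inv_one, mul_one]
        rfl
      map_add' := fun x y => by
        rw [← ofMul_mul]
        congr 1
        have := hmul x y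
        rw [mul_inv_eq_iff_eq_mul]
        calc g.c (x + y) = (g.c (x + y) * (h.c x * h.c y)) * ((h.c x)⁻¹ * (h.c y)⁻¹) := by
              rw [mul_assoc, mul_mul_mul_comm, mul_inv_cancel, mul_inv_cancel, one_mul, mul_one]
          _ = _ := by
              rw [this, mul_mul_mul_comm (g.c x) (h.c x)⁻¹, mul_assoc, mul_comm] }
  have hF : F = 0 := by
    apply AddMonoidHom.functions_ext
    intro i a
    have h1 : (Pi.single i a : Fin n → ℤ) = a • Pi.single i 1 := by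
      rw [← Pi.single_smul, smul_eq_mul, mul_one]
    rw [h1, map_zsmul]
    have h2 : F (Pi.single i 1) = 0 := by
      change Additive.ofMul (g.c (Pi.single i 1) * (h.c (Pi.single i 1))⁻¹) = 0
      rw [hc, mul_inv_cancel]
      rfl
    rw [h2, smul_zero]
    rfl
  have h1 : F x = 0 := by rw [hF]; rfl
  have h2 : g.c x * (h.c x)⁻¹ = 1 := h1
  exact mul_inv_eq_one.1 h2

variable [StarRing O]

/-- the semilinear map which fixes the basis -/
def st (X : LA O U) : LA O U := (fun i => star (X.1 i), fun y => star (X.2 y))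

/-- the automorphisms which commute with the semilinear map `g0 ∘ st` -/
def Ut (g0 : Mo O U) : Subgroup (LA O U ≃ₗ[O] LA O U) where
  carrier := {g | g ∈ Ga O U ∧ ∀ X, g (g0.toE (st X)) = g0.toE (st (g X))}
  one_mem' := ⟨one_mem _, fun X => rfl⟩
  mul_mem' := by
    intro g h hg hh
    refine ⟨mul_mem hg.1 hh.1, fun X => ?_⟩
    change g (h (g0.toE (st X))) = g0.toE (st (g (h X)))
    rw [hh.2, hg.2]
  inv_mem' := by
    intro g hg
    refine ⟨inv_mem hg.1, fun X => ?_⟩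
    have h1 : ∀ Z, g (g⁻¹ Z) = Z := fun Z => LinearEquiv.apply_symm_apply g Z
    apply g.injective
    rw [h1, hg.2, h1]

theorem Ut_le (g0 : Mo O U) : Ut g0 ≤ Ga O U := fun _ hg => hg.1

theorem Mo.mem_Ut [Finite (Rt U)] (g g0 : Mo O U) (hW : g.W * g0.W = g0.W * g.W)
    (hc : ∀ x, (g0.c x : O) * g.c (g0.W *ᵥ x) = star (g.c x : O) * g0.c (g.W *ᵥ x)) :
    g.toE ∈ Ut g0 := by
  refine ⟨g.toE_mem, fun X => ?_⟩
  refine Prod.ext (funext fun i => ?_) (funext fun y => ?_)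
  · change g.lin (g0.lin fun i => star (X.1 i)) i = g0.lin (fun i => star (g.lin X.1 i)) i
    have h1 : (fun i => star (g.lin X.1 i)) = g.lin fun i => star (X.1 i) := by
      funext i
      unfold Mo.lin
      rw [star_sum]
      refine Finset.sum_congr rfl fun j _ => ?_
      rw [star_mul', star_intCast]
    rw [h1, Mo.lin_comp, Mo.lin_comp, hW]
  · have e0 : ∀ x : Fin n → ℤ, g.W *ᵥ (g0.W *ᵥ x) = g0.W *ᵥ (g.W *ᵥ x) := fun x => by
      rw [Matrix.mulVec_mulVec, hW, Matrix.mulVec_mulVec]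
    change (g.c (g.W *ᵥ y.1) : O) * (g0.c (g0.W *ᵥ (g.W *ᵥ y.1)) * star (X.2 (g0.pe (g.pe y)))) =
      g0.c (g0.W *ᵥ y.1) * star (g.c (g.W *ᵥ (g0.W *ᵥ y.1)) * X.2 (g.pe (g0.pe y)))
    have e1 : g0.pe (g.pe y) = g.pe (g0.pe y) := Subtype.ext (e0 y.1).symm
    have h1 := hc (g.W *ᵥ (g0.W *ᵥ y.1))
    have h2 : g0.W *ᵥ (g.W *ᵥ (g0.W *ᵥ y.1)) = g.W *ᵥ y.1 := by rw [← e0, g0.WW]
    rw [g.WW, h2] at h1
    rw [← e0, e1, star_mul']
    calc (g.c (g.W *ᵥ y.1) : O) * (g0.c (g.W *ᵥ (g0.W *ᵥ y.1)) * star (X.2 (g.pe (g0.pe y))))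
        = (g0.c (g.W *ᵥ (g0.W *ᵥ y.1)) * g.c (g.W *ᵥ y.1)) * star (X.2 (g.pe (g0.pe y))) := by ring
      _ = _ := by rw [h1]; ring

end

end Q175.EX
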