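import Pool.Agent.Q175.EX.E6
import Pool.Agent.Q175.EX.Twi

/-!
# Project EX: the twisted form of E6
-/

set_option autoImplicit false

namespace Q175.EX

open Matrix

section

variable {n : ℕ}

theorem B_transpose (P : Matrix (Fin n) (Fin n) ℤ) (x y : Fin n → ℤ) : B Pᵀ x y = B P y x := by
  unfold B
  rw [Finset.sum_comm]
  refine Finset.sum_congr rfl fun i _ => Finset.sum_congr rfl fun j _ => ?_
  rw [Matrix.transpose_apply]
  ring

theorem B_mat_add (P Q : Matrix (Fin n) (Fin n) ℤ) (x y : Fin n → ℤ) :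
    B (P + Q) x y = B P x y + B Q x y := by
  unfold B
  rw [← Finset.sum_add_distrib]
  refine Finset.sum_congr rfl fun i _ => ?_
  rw [← Finset.sum_add_distrib]
  refine Finset.sum_congr rfl fun j _ => ?_
  rw [Matrix.add_apply]
  ring

theorem B_eq (P : Matrix (Fin n) (Fin n) ℤ) (x y : Fin n → ℤ) : B P x y = x ⬝ᵥ (P *ᵥ y) := by
  unfold B
  rw [dotProduct]
  refine Finset.sum_congr rfl fun i _ => ?_
  rw [Matrix.mulVec, dotProduct, Finset.mul_sum]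
  refine Finset.sum_congr rfl fun j _ => ?_
  ring

theorem B_conj (P W : Matrix (Fin n) (Fin n) ℤ) (x y : Fin n → ℤ) :
    B P (W *ᵥ x) (W *ᵥ y) = B (Wᵀ * P * W) x y := by
  rw [B_eq, B_eq, ← Matrix.mulVec_mulVec, ← Matrix.mulVec_mulVec, Matrix.dotProduct_mulVec x,
    Matrix.vecMul_transpose]

theorem B_even {P : Matrix (Fin n) (Fin n) ℤ} (h : ∀ i j, Even (P i j)) (x y : Fin n → ℤ) :
    Even (B P x y) := by
  unfold B
  refine Finset.even_sum _ fun i _ => Finset.even_sum _ fun j _ => ?_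
  obtain ⟨w, hw⟩ := h i j
  exact ⟨x i * w * y j, by rw [hw]; ring⟩

/-- a monomial automorphism from an isometry and a quadratic form modulo `2` -/
def qm {O : Type} [CommRing O] {U : Matrix (Fin n) (Fin n) ℤ} (W Q : Matrix (Fin n) (Fin n) ℤ)
    (h1 : W * W = 1) (h2 : Wᵀ * (U + Uᵀ) * W = U + Uᵀ)
    (h3 : ∀ i j, Even ((Q + Qᵀ + (U + Wᵀ * U * W)) i j)) : Mo O U where
  W := W
  inv := h1
  iso := fun x y => by
    have h : ∀ x y, B U x y + B U y x = B (U + Uᵀ) x y := fun x y => by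
      rw [B_mat_add, B_transpose]
    rw [h, h, B_conj, h2]
  c := fun x => sgu (B Q x x)
  coc := fun x y => by
    change (sg (B Q (x + y) (x + y)) : O) * sg (B U x y) =
      sg (B Q x x) * sg (B Q y y) * sg (B U (W *ᵥ x) (W *ᵥ y))
    rw [← sg_add, ← sg_add, ← sg_add, B_conj]
    apply sg_congr
    obtain ⟨w, hw⟩ := B_even h3 x y
    rw [B_mat_add, B_mat_add, B_mat_add, B_transpose] at hw
    rw [B_add_left, B_add_right, B_add_right]
    exact ⟨w - B (Wᵀ * U * W) x y, by linear_combination hw⟩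

theorem sgu_add {O : Type} [CommRing O] (a b : ℤ) : (sgu (a + b) : Oˣ) = sgu a * sgu b :=
  Units.ext (sg_add a b)

theorem sgu_congr {O : Type} [CommRing O] {a b : ℤ} (h : Even (a - b)) :
    (sgu a : Oˣ) = sgu b := Units.ext (sg_congr h)

theorem star_sgu {O : Type} [CommRing O] [StarRing O] (a : ℤ) :
    star ((sgu a : Oˣ) : O) = ((sgu a : Oˣ) : O) := by
  change star (sg a : O) = sg a
  unfold sg
  split_ifs
  · exact star_one O
  · rw [star_neg, star_one]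

end

/-- the isometry of the root lattice of `E_6` which changes the signs of the coordinates number
`1, 2, 3, 4` of `R^8` -/
def W6 : Matrix (Fin 6) (Fin 6) ℤ :=
  !![1,  0,  0,  0,  0, 0;
     1, -1,  0,  0,  0, 1;
     2,  0, -1,  0,  0, 1;
     2,  0,  0, -1,  0, 2;
     1,  0,  0,  0, -1, 2;
     0,  0,  0,  0,  0, 1]

/-- the quadratic form of the signs -/
def Q6 : Matrix (Fin 6) (Fin 6) ℤ :=
  !![0, 1, 0, 1, 1, 1;
     0, 0, 0, 0, 0, 1;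
     0, 0, 0, 0, 0, 1;
     0, 0, 0, 0, 0, 0;
     0, 0, 0, 0, 0, 0;
     0, 0, 0, 0, 0, 0]

theorem W6_1 : W6 * W6 = 1 := by decide +kernel

theorem W6_2 : W6ᵀ * (Uc CartanMatrix.E₆ + (Uc CartanMatrix.E₆)ᵀ) * W6 =
    Uc CartanMatrix.E₆ + (Uc CartanMatrix.E₆)ᵀ := by decide +kernel

theorem W6_3' : ∀ i j, (Q6 + Q6ᵀ + (Uc CartanMatrix.E₆ +
    W6ᵀ * Uc CartanMatrix.E₆ * W6)) i j % 2 = 0 := by decide +kernel

theorem W6_3 : ∀ i j, Even ((Q6 + Q6ᵀ + (Uc CartanMatrix.E₆ +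
    W6ᵀ * Uc CartanMatrix.E₆ * W6)) i j) := fun i j => Int.even_iff.2 (W6_3' i j)

/-- the sign changes -/
def D6 : Matrix (Fin 6) (Fin 6) ℤ := Matrix.diagonal ![-1, -1, -1, -1, 1, 1]

theorem W6_C6 : C6 * W6 = D6 * C6 := by decide +kernel

/-- the monomial automorphism `h ↦ W h`, `e_x ↦ (-1)^(Q x x) e_(W x)` -/
def om (O : Type) [CommRing O] : Mo O (Uc CartanMatrix.E₆) := qm W6 Q6 W6_1 W6_2 W6_3

theorem rW6_comm : ∀ j : Fin 4, rW (Uc CartanMatrix.E₆) (be6 j) * rW (Uc CartanMatrix.E₆) (ga6 j) =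
    rW (Uc CartanMatrix.E₆) (ga6 j) * rW (Uc CartanMatrix.E₆) (be6 j) := by decide +kernel

theorem rW6_W : ∀ j : Fin 4, rW (Uc CartanMatrix.E₆) (be6 j) * rW (Uc CartanMatrix.E₆) (ga6 j) * W6 =
    W6 * (rW (Uc CartanMatrix.E₆) (be6 j) * rW (Uc CartanMatrix.E₆) (ga6 j)) := by decide +kernel

/-- the exponent of the sign of the flip -/
def ep (j : Fin 4) (x : Fin 6 → ℤ) : ℤ :=
  Sf (Uc CartanMatrix.E₆) x (ga6 j) * B (Uc CartanMatrix.E₆) (ga6 j) x +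
    Sf (Uc CartanMatrix.E₆) (rW (Uc CartanMatrix.E₆) (ga6 j) *ᵥ x) (be6 j) *
      B (Uc CartanMatrix.E₆) (be6 j) (rW (Uc CartanMatrix.E₆) (ga6 j) *ᵥ x)

theorem ep_comm : ∀ (j : Fin 3) (i : Fin 6),
    Even ((B Q6 (Pi.single i 1) (Pi.single i 1) + ep j.succ (W6 *ᵥ Pi.single i 1)) -
      (ep j.succ (Pi.single i 1) +
        B Q6 ((rW (Uc CartanMatrix.E₆) (be6 j.succ) * rW (Uc CartanMatrix.E₆) (ga6 j.succ)) *ᵥ
            Pi.single i 1)
          ((rW (Uc CartanMatrix.E₆) (be6 j.succ) * rW (Uc CartanMatrix.E₆) (ga6 j.succ)) *ᵥ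
            Pi.single i 1))) := by decide +kernel

/-- the flip -/
def R6 (O : Type) [CommRing O] (j : Fin 4) : Mo O (Uc CartanMatrix.E₆) :=
  (rf ⟨be6 j, be6_rt j⟩).comp (rf ⟨ga6 j, ga6_rt j⟩) (rW6_comm j)

theorem R6_c (O : Type) [CommRing O] (j : Fin 4) (x : Fin 6 → ℤ) :
    (R6 O j).c x = sgu (ep j x) := by
  unfold ep
  rw [sgu_add]
  rfl

theorem R6_W (O : Type) [CommRing O] (j : Fin 4) : (R6 O j).W * (om O).W = (om O).W * (R6 O j).W :=
  rW6_W j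

theorem R6_om (O : Type) [CommRing O] (j : Fin 3) (x : Fin 6 → ℤ) :
    (om O).c x * (R6 O j.succ).c ((om O).W *ᵥ x) =
      (R6 O j.succ).c x * (om O).c ((R6 O j.succ).W *ᵥ x) := by
  refine Mo.c_ext ((R6 O j.succ).comp (om O) (R6_W O _)) ((om O).comp (R6 O j.succ) (R6_W O _).symm)
    (R6_W O _) (fun i => ?_) x
  change (om O).c (Pi.single i 1) * (R6 O j.succ).c ((om O).W *ᵥ Pi.single i 1) =
    (R6 O j.succ).c (Pi.single i 1) * (om O).c ((R6 O j.succ).W *ᵥ Pi.single i 1)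
  rw [R6_c, R6_c]
  change sgu (B Q6 (Pi.single i 1) (Pi.single i 1)) * sgu (ep j.succ (W6 *ᵥ Pi.single i 1)) =
    sgu (ep j.succ (Pi.single i 1)) *
      sgu (B Q6 ((rW (Uc CartanMatrix.E₆) (be6 j.succ) * rW (Uc CartanMatrix.E₆) (ga6 j.succ)) *ᵥ
            Pi.single i 1)
          ((rW (Uc CartanMatrix.E₆) (be6 j.succ) * rW (Uc CartanMatrix.E₆) (ga6 j.succ)) *ᵥ
            Pi.single i 1))
  rw [← sgu_add, ← sgu_add]
  exact sgu_congr (ep_comm j i)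

variable {O : Type} [CommRing O] [StarRing O]

theorem R6_mem (j : Fin 3) : (rf (O := O) ⟨be6 j.succ, be6_rt j.succ⟩).toE *
    (rf (O := O) ⟨ga6 j.succ, ga6_rt j.succ⟩).toE ∈ Ut (om O) := by
  have := finite6
  have h1 : (R6 O j.succ).toE ∈ Ut (om O) := by
    refine Mo.mem_Ut _ _ (R6_W O _) fun x => ?_
    have h2 := congrArg Units.val (R6_om O j x)
    rw [Units.val_mul, Units.val_mul] at h2
    rw [h2, R6_c, star_sgu]
  have h2 : (R6 O j.succ).toE = (rf (O := O) ⟨be6 j.succ, be6_rt j.succ⟩).toE *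
    (rf (O := O) ⟨ga6 j.succ, ga6_rt j.succ⟩).toE := Mo.comp_toE _ _ _
  rw [← h2]
  exact h1

theorem CW6 (x : Fin 6 → ℤ) (a : Fin 6) : (C6 *ᵥ (W6 *ᵥ x)) a =
    (![-1, -1, -1, -1, 1, 1] : Fin 6 → ℤ) a * (C6 *ᵥ x) a := by
  rw [Matrix.mulVec_mulVec, W6_C6, ← Matrix.mulVec_mulVec, D6, Matrix.mulVec_diagonal]

theorem tor6_mem (u : Oˣ) (hu : star (u : O) * u = 1) (l : Fin 6 → ℤ)
    (hl : ∀ x, l ⬝ᵥ (W6 *ᵥ x) = -(l ⬝ᵥ x)) :
    (tor (U := Uc CartanMatrix.E₆) u l).toE ∈ Ut (om O) := by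
  have := finite6
  refine Mo.mem_Ut _ _ ?_ fun x => ?_
  · change (1 : Matrix (Fin 6) (Fin 6) ℤ) * W6 = W6 * 1
    rw [one_mul, mul_one]
  · have e1 : ((tor (U := Uc CartanMatrix.E₆) u l).W *ᵥ x) = x := Matrix.one_mulVec x
    rw [e1, mul_comm]
    congr 1
    change ((u ^ (l ⬝ᵥ (W6 *ᵥ x)) : Oˣ) : O) = star ((u ^ (l ⬝ᵥ x) : Oˣ) : O)
    have h1 : star u = u⁻¹ := by
      apply eq_inv_of_mul_eq_one_left
      apply Units.ext
      rw [Units.val_mul, Units.coe_star, hu, Units.val_one]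
    rw [← Units.coe_star, star_zpow, h1, hl, _root_.inv_zpow']

/-- the twisted form of `E_6` -/
theorem e6t (u : Oˣ) (hu : u * u = -1) (hs : star (u : O) * u = 1) :
    Rig O (Uc CartanMatrix.E₆) C6 0 (Ut (om O)) u 16 := by
  have := finite6
  have h1 : star ((-1 : Oˣ) : O) * ((-1 : Oˣ) : O) = 1 := by simp
  have h4 : (4 : Fin 6) ≠ 0 ∧ ∀ k : Fin 3, k.succ.castSucc.castSucc ≠ (4 : Fin 6) := by decide
  have hl0 : ∀ x, C6 0 ⬝ᵥ (W6 *ᵥ x) = -(C6 0 ⬝ᵥ x) := by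
    intro x
    have := CW6 x 0
    change C6 0 ⬝ᵥ (W6 *ᵥ x) = -1 * (C6 0 ⬝ᵥ x) at this
    rw [this]
    ring
  have hlj : ∀ (j : Fin 3) (x : Fin 6 → ℤ), (C6 *ᵥ (W6 *ᵥ x)) j.succ.castSucc.castSucc =
      -(C6 *ᵥ x) j.succ.castSucc.castSucc := by
    intro j x
    rw [CW6]
    fin_cases j <;> exact neg_one_mul _
  exact gen (wt := w6) w6_pos L6 12 (by norm_num) L6_C6 A6_C6 par6 0
    (fun j : Fin 3 => j.succ.castSucc.castSucc) (by decide) (by decide) _ (Ut_le _) u (Or.inr hu)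
    (tor6_mem _ h1 _ hl0)
    (fun j l hl => tor6_mem _ h1 _ (fun x => by
      have e1 := hl x
      have e2 := hl (W6 *ᵥ x)
      have e3 := hlj j x
      have e4 := hl0 x
      change (C6 *ᵥ (W6 *ᵥ x)) 0 = -(C6 *ᵥ x) 0 at e4
      rw [e3, e4] at e2
      omega)) (fun _ => tor6_mem _ hs _ hl0)
    (fun j => Or.inl ⟨⟨be6 j.succ, be6_rt j.succ⟩, ⟨ga6 j.succ, ga6_rt j.succ⟩, 4, h4,
      (aw6 j.succ).1, be6_C j.succ, ga6_C j.succ, (aw6 j.succ).2, rfl, R6_mem j⟩) 16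
    (Or.inr ⟨hu, by norm_num⟩)

end Q175.EX
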