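import Pool.Agent.Q175.EX.Rel

/-!
# Project EX: sign changes of coordinates as products of reflections
-/

set_option autoImplicit false

open scoped Manifold ContDiff

namespace Q175.EX

open Matrix Module Q4.ZI

/-- the upper triangular matrix with diagonal `1` and the entries of `A` above the diagonal -/
def Uc {n : ℕ} (A : Matrix (Fin n) (Fin n) ℤ) : Matrix (Fin n) (Fin n) ℤ :=
  Matrix.of fun i j => if i = j then 1 else if i < j then A i j else 0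

section

variable {O : Type} [CommRing O] {n m : ℕ} {U : Matrix (Fin n) (Fin n) ℤ}

theorem Uc_diag (A : Matrix (Fin n) (Fin n) ℤ) (j : Fin n) : Uc A j j = 1 := if_pos rfl

theorem Sf_of {C : Matrix (Fin m) (Fin n) ℤ} {wt : Fin m → ℤ}
    (h : ∀ i j, 4 * (U i j + U j i) = ∑ a, wt a * (C a i * C a j)) (x y : Fin n → ℤ) :
    4 * Sf U x y = ∑ a, wt a * ((C *ᵥ x) a * (C *ᵥ y) a) := by
  have h1 : Sf U x y = ∑ i, ∑ j, x i * (U i j + U j i) * y j := by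
    unfold Sf B
    rw [Finset.sum_comm (f := fun i j => y i * U i j * x j), ← Finset.sum_add_distrib]
    refine Finset.sum_congr rfl fun i _ => ?_
    rw [← Finset.sum_add_distrib]
    refine Finset.sum_congr rfl fun j _ => ?_
    ring
  rw [h1, Finset.mul_sum]
  have h2 : ∀ a, wt a * ((C *ᵥ x) a * (C *ᵥ y) a) =
      ∑ i, ∑ j, wt a * (C a i * x i * (C a j * y j)) := by
    intro a
    change wt a * ((∑ i, C a i * x i) * (∑ j, C a j * y j)) = _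
    rw [Finset.sum_mul_sum, Finset.mul_sum]
    refine Finset.sum_congr rfl fun i _ => ?_
    rw [Finset.mul_sum]
  simp_rw [h2]
  rw [Finset.sum_comm]
  refine Finset.sum_congr rfl fun i _ => ?_
  rw [Finset.mul_sum, Finset.sum_comm]
  refine Finset.sum_congr rfl fun j _ => ?_
  calc 4 * (x i * (U i j + U j i) * y j) = (4 * (U i j + U j i)) * (x i * y j) := by ring
    _ = _ := by
      rw [h, Finset.sum_mul]
      refine Finset.sum_congr rfl fun a _ => ?_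
      ring

theorem inj_of {C : Matrix (Fin m) (Fin n) ℤ} (L : Matrix (Fin n) (Fin m) ℤ) (d : ℤ) (hd : d ≠ 0)
    (h : L * C = d • 1) : Function.Injective C.mulVec := by
  intro x y hxy
  have h1 : (L * C) *ᵥ x = (L * C) *ᵥ y := by
    rw [← Matrix.mulVec_mulVec, ← Matrix.mulVec_mulVec, hxy]
  rw [h, Matrix.smul_mulVec, Matrix.smul_mulVec, Matrix.one_mulVec, Matrix.one_mulVec] at h1
  funext i
  have := congrFun h1 i
  exact mul_left_cancel₀ hd this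

theorem sum_single (f : Fin m → ℤ) (a : Fin m) (c : ℤ) :
    ∑ k, f k * (Pi.single a c : Fin m → ℤ) k = f a * c := by
  rw [Finset.sum_eq_single a]
  · rw [Pi.single_eq_same]
  · intro k _ hk
    rw [Pi.single_eq_of_ne hk, mul_zero]
  · intro ha
    exact absurd (Finset.mem_univ _) ha

/-- signs changed at one place -/
def fl1 (a : Fin m) : Fin m → ℤ := fun k => if k = a then -1 else 1

/-- signs changed at two places -/
def fl2 (a b : Fin m) : Fin m → ℤ := fun k => if k = a ∨ k = b then -1 else 1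

theorem flip1 {C : Matrix (Fin m) (Fin n) ℤ} {wt : Fin m → ℤ} {u : Oˣ} (hu : ∃ k : ℤ, u ^ k = -1)
    (hS : ∀ x y, 4 * Sf U x y = ∑ a, wt a * ((C *ᵥ x) a * (C *ᵥ y) a)) (β : Rt U) (a : Fin m)
    (hβ : C *ᵥ β.1 = Pi.single a 2) (ha : wt a = 2) : MonD C u (fl1 a) (rf (O := O) β).toE := by
  intro x
  refine ⟨(rf (O := O) β).pe x, fun k => ?_, ?_⟩
  · rw [rf_pe, Matrix.mulVec_sub, Matrix.mulVec_smul, hβ]
    have h1 := hS x.1 β.1
    rw [hβ] at h1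
    simp_rw [← mul_assoc] at h1
    rw [sum_single, ha] at h1
    have h2 : Sf U x.1 β.1 = (C *ᵥ x.1) a := by linarith
    rw [h2]
    change (C *ᵥ x.1) k - (C *ᵥ x.1) a * (Pi.single a 2 : Fin m → ℤ) k = (if k = a then -1 else 1) * _
    by_cases hk : k = a
    · subst hk
      rw [Pi.single_eq_same, if_pos rfl]
      ring
    · rw [Pi.single_eq_of_ne hk, if_neg hk]
      ring
  · obtain ⟨k, hk⟩ := sg_zpow (O := O) hu (Sf U x.1 β.1 * B U β.1 x.1)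
    exact ⟨k, by rw [rf_ev, hk]⟩

theorem flip2 {C : Matrix (Fin m) (Fin n) ℤ} {wt : Fin m → ℤ} {u : Oˣ} (hu : ∃ k : ℤ, u ^ k = -1)
    (hS : ∀ x y, 4 * Sf U x y = ∑ a, wt a * ((C *ᵥ x) a * (C *ᵥ y) a)) (β γ : Rt U) (a b : Fin m)
    (hab : a ≠ b) (hβ : C *ᵥ β.1 = Pi.single a 2 + Pi.single b 2)
    (hγ : C *ᵥ γ.1 = Pi.single a 2 - Pi.single b 2) (ha : wt a = 1) (hb : wt b = 1) :
    MonD C u (fl2 a b) ((rf (O := O) β).toE * (rf (O := O) γ).toE) := by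
  intro x
  refine ⟨(rf (O := O) β).pe ((rf (O := O) γ).pe x), fun k => ?_, ?_⟩
  · have e1 : ((rf (O := O) β).pe ((rf (O := O) γ).pe x)).1 =
        (x.1 - Sf U x.1 γ.1 • γ.1) - Sf U (x.1 - Sf U x.1 γ.1 • γ.1) β.1 • β.1 := by
      rw [rf_pe, rf_pe]
    rw [e1]
    set x' := x.1 - Sf U x.1 γ.1 • γ.1 with hx'
    have h1 := hS x.1 γ.1
    rw [hγ] at h1
    simp_rw [← mul_assoc] at h1
    simp only [Pi.sub_apply, mul_sub, Finset.sum_sub_distrib] at h1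
    rw [sum_single, sum_single, ha, hb] at h1
    have h2 : C *ᵥ x' = C *ᵥ x.1 - Sf U x.1 γ.1 • (Pi.single a 2 - Pi.single b 2) := by
      rw [hx', Matrix.mulVec_sub, Matrix.mulVec_smul, hγ]
    have ea : (C *ᵥ x') a = (C *ᵥ x.1) a - Sf U x.1 γ.1 * 2 := by
      rw [h2]
      change (C *ᵥ x.1) a - Sf U x.1 γ.1 * ((Pi.single a 2 : Fin m → ℤ) a -
        (Pi.single b 2 : Fin m → ℤ) a) = _
      rw [Pi.single_eq_same, Pi.single_eq_of_ne hab, sub_zero]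
    have eb : (C *ᵥ x') b = (C *ᵥ x.1) b + Sf U x.1 γ.1 * 2 := by
      rw [h2]
      change (C *ᵥ x.1) b - Sf U x.1 γ.1 * ((Pi.single a 2 : Fin m → ℤ) b -
        (Pi.single b 2 : Fin m → ℤ) b) = _
      rw [Pi.single_eq_same, Pi.single_eq_of_ne hab.symm]
      ring
    have h3 := hS x' β.1
    rw [hβ] at h3
    simp_rw [← mul_assoc] at h3
    simp only [Pi.add_apply, mul_add, Finset.sum_add_distrib] at h3
    rw [sum_single, sum_single, ha, hb, ea, eb] at h3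
    rw [Matrix.mulVec_sub, Matrix.mulVec_smul, hβ]
    change (C *ᵥ x') k - Sf U x' β.1 * ((Pi.single a 2 : Fin m → ℤ) k +
      (Pi.single b 2 : Fin m → ℤ) k) = (if k = a ∨ k = b then -1 else 1) * _
    by_cases hk : k = a
    · rw [hk, Pi.single_eq_same, Pi.single_eq_of_ne hab, if_pos (Or.inl rfl), ea]
      linarith
    · by_cases hk' : k = b
      · rw [hk', Pi.single_eq_same, Pi.single_eq_of_ne hab.symm, if_pos (Or.inr rfl), eb]
        linarith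
      · rw [Pi.single_eq_of_ne hk, Pi.single_eq_of_ne hk', if_neg (by tauto), h2]
        change (C *ᵥ x.1) k - Sf U x.1 γ.1 * ((Pi.single a 2 : Fin m → ℤ) k -
          (Pi.single b 2 : Fin m → ℤ) k) - _ = _
        rw [Pi.single_eq_of_ne hk, Pi.single_eq_of_ne hk']
        ring
  · change ∃ k : ℤ, (rf (O := O) β).toE ((rf (O := O) γ).toE (ev x)) = _
    obtain ⟨k, hk⟩ := sg_zpow (O := O) hu (Sf U x.1 γ.1 * B U γ.1 x.1)
    obtain ⟨l, hl⟩ := sg_zpow (O := O) hu (Sf U ((rf (O := O) γ).pe x).1 β.1 *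
      B U β.1 ((rf (O := O) γ).pe x).1)
    refine ⟨k + l, ?_⟩
    rw [rf_ev, map_smul, rf_ev, smul_smul, hk, hl, ← Units.val_mul, ← _root_.zpow_add]

/-- the flip at the place `a`, realized inside `Γ` -/
def Fl (O : Type) [CommRing O] (U : Matrix (Fin n) (Fin n) ℤ) (C : Matrix (Fin m) (Fin n) ℤ)
    (wt : Fin m → ℤ) (Γ : Subgroup (LA O U ≃ₗ[O] LA O U)) (S : Fin m → Prop) (a : Fin m) : Prop :=
  (∃ (β γ : Rt U) (b : Fin m), S b ∧ a ≠ b ∧ C *ᵥ β.1 = Pi.single a 2 + Pi.single b 2 ∧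
    C *ᵥ γ.1 = Pi.single a 2 - Pi.single b 2 ∧ wt a = 1 ∧ wt b = 1 ∧
    (rf (O := O) β).toE * (rf (O := O) γ).toE ∈ Γ) ∨
  ∃ β : Rt U, C *ᵥ β.1 = Pi.single a 2 ∧ wt a = 2 ∧ (rf (O := O) β).toE ∈ Γ

theorem Fl.flip {C : Matrix (Fin m) (Fin n) ℤ} {wt : Fin m → ℤ}
    {Γ : Subgroup (LA O U ≃ₗ[O] LA O U)} {S : Fin m → Prop} {a : Fin m} (h : Fl O U C wt Γ S a)
    {u : Oˣ} (hu : ∃ k : ℤ, u ^ k = -1)
    (hS : ∀ x y, 4 * Sf U x y = ∑ a, wt a * ((C *ᵥ x) a * (C *ᵥ y) a)) :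
    ∃ (δ : Fin m → ℤ) (g : LA O U ≃ₗ[O] LA O U), g ∈ Γ ∧ MonD C u δ g ∧
      (∀ b, δ b = 1 ∨ δ b = -1) ∧ δ a = -1 ∧ ∀ b, b ≠ a → ¬ S b → δ b = 1 := by
  rcases h with ⟨β, γ, b, hb, hab, hβ, hγ, h1, h2, h3⟩ | ⟨β, hβ, h1, h2⟩
  · refine ⟨fl2 a b, _, h3, flip2 hu hS β γ a b hab hβ hγ h1 h2, fun k => ?_, ?_,
      fun k hk hk' => ?_⟩
    · unfold fl2
      split_ifs
      · exact Or.inr rfl
      · exact Or.inl rfl
    · exact if_pos (Or.inl rfl)
    · refine if_neg ?_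
      rintro (h | h)
      · exact hk h
      · exact hk' (h ▸ hb)
  · refine ⟨fl1 a, _, h2, flip1 hu hS β a hβ h1, fun k => ?_, ?_, fun k hk hk' => ?_⟩
    · unfold fl1
      split_ifs
      · exact Or.inr rfl
      · exact Or.inl rfl
    · exact if_pos rfl
    · exact if_neg hk

/-- Let `G` be a group, `D` a subgroup, `z` in `G`. If `G` acts by `C^1` diffeomorphisms on a
connected Hausdorff manifold `M`, `2 ^ k dim M < N`, and if `D` has an orbit with at most `2 ^ k`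
points, or if `M` has a finite triangulation invariant under `D` with Euler characteristic not
divisible by `2 ^ (k + 1)`, then `z` acts trivially on `M`. -/
def FixZ (G : Type) [Group G] (D : Subgroup G) (z : G) (N : ℕ) : Prop :=
  ∀ (k : ℕ) (E M : Type) [NormedAddCommGroup E] [NormedSpace ℝ E] [FiniteDimensional ℝ E]
    [TopologicalSpace M] [T2Space M] [ConnectedSpace M] [ChartedSpace E M]
    [IsManifold 𝓘(ℝ, E) 1 M] [MulAction G M],
    (∀ g : G, ContMDiff 𝓘(ℝ, E) 𝓘(ℝ, E) 1 (fun y : M => g • y)) →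
    ((∃ x : M, (MulAction.orbit D x).ncard ≤ 2 ^ k) ∨
      ∃ t : Tri D M, ¬ (2 : ℤ) ^ (k + 1) ∣ t.chi) →
    finrank ℝ E * 2 ^ k < N → ∀ y : M, z • y = y

/-- what is proved about the group `Γ` -/
def Rig (O : Type) [CommRing O] (U : Matrix (Fin n) (Fin n) ℤ) (C : Matrix (Fin m) (Fin n) ℤ)
    (p : Fin m) (Γ : Subgroup (LA O U ≃ₗ[O] LA O U)) (u : Oˣ) (N : ℕ) : Prop :=
  ∃ z : Γ, (∀ X : LA O U, z.1 X = (X.1, fun y => sg ((C *ᵥ y.1) p) * X.2 y)) ∧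
    FixZ Γ (Dm Γ C u) z N

theorem gen {A : Matrix (Fin n) (Fin n) ℤ} {C : Matrix (Fin m) (Fin n) ℤ} {wt : Fin m → ℤ}
    (hwt : ∀ a, 0 < wt a) (L : Matrix (Fin n) (Fin m) ℤ) (d : ℤ) (hd : d ≠ 0) (hL : L * C = d • 1)
    (hAC : ∀ i j, 4 * (Uc A i j + Uc A j i) = ∑ a, wt a * (C a i * C a j))
    (hpar : ∀ i a b, Even (C a i + C b i)) (p : Fin m) {r : ℕ} (a : Fin r → Fin m)
    (ha : ∀ j, a j ≠ p) (hinj : Function.Injective a)
    (Γ : Subgroup (LA O (Uc A) ≃ₗ[O] LA O (Uc A))) (hΓ : Γ ≤ Ga O (Uc A)) (u : Oˣ)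
    (hu : u = -1 ∨ u * u = -1)
    (htp : T O (Uc A) (C p) ∈ Γ) (hth : ∀ (j : Fin r) (l : Fin n → ℤ),
      (∀ x, 2 * (l ⬝ᵥ x) = (C *ᵥ x) p + (C *ᵥ x) (a j)) → T O (Uc A) l ∈ Γ)
    (htu : u * u = -1 → (tor (U := Uc A) u (C p)).toE ∈ Γ)
    (hfl : ∀ j, Fl O (Uc A) C wt Γ (fun b => b ≠ p ∧ ∀ k, a k ≠ b) (a j)) (N : ℕ)
    (hN : (u = -1 ∧ N ≤ 2 ^ r) ∨ (u * u = -1 ∧ N ≤ 2 ^ (r + 1))) : Rig O (Uc A) C p Γ u N := by
  have hC : Function.Injective C.mulVec := inj_of L d hd hL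
  have hS := Sf_of (U := Uc A) (wt := wt) hAC
  have huk : ∃ k : ℤ, u ^ k = -1 := by
    rcases hu with h | h
    · exact ⟨1, by rw [zpow_one, h]⟩
    · exact ⟨2, by rw [← h]; exact zpow_two u⟩
  have hfin : Finite (Rt (Uc A)) := finite_rt hC hwt (fun x => hS x x)
  choose δ ν hν hνD hδ hδj hδb using fun j => (hfl j).flip huk hS
  refine ⟨⟨_, htp⟩, T_apply C p, ?_⟩
  intro k E M _ _ _ _ _ _ _ _ _ hsm hD hE
  refine main (Uc_diag A) hC hpar p a Γ hΓ u hu htp hth htu δ hδ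
    (fun j => hδb j p (ha j).symm (fun h => h.1 rfl))
    (fun j k hjk => hδb j (a k) (fun h => hjk (hinj h).symm) (fun h => h.2 k rfl)) hδj ν hν hνD
    E M hsm k hD ?_
  rcases hN with ⟨h1, h2⟩ | ⟨h1, h2⟩
  · exact Or.inl ⟨h1, lt_of_lt_of_le hE h2⟩
  · exact Or.inr ⟨h1, lt_of_lt_of_le hE h2⟩

end

end Q175.EX
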