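import Pool.Agent.Q175.EX.Ind
import Pool.Agent.Q23.ZQ.Fix

/-!
# Project EX: actions of finite 2-groups on manifolds of small dimension
-/

set_option autoImplicit false

open scoped Manifold ContDiff

namespace Q175.EX

open Module Q4.ZI

/-- a connected manifold of dimension zero is a point -/
theorem dim0 (E M : Type) [NormedAddCommGroup E] [NormedSpace ℝ E] [FiniteDimensional ℝ E]
    [TopologicalSpace M] [ConnectedSpace M] [ChartedSpace E M] (h : finrank ℝ E = 0) :
    Subsingleton M := by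
  have hE : Subsingleton E := Module.finrank_zero_iff.1 h
  have hd : DiscreteTopology M := by
    rw [discreteTopology_iff_forall_isOpen]
    intro s
    rw [isOpen_iff_forall_mem_open]
    intro x hx
    refine ⟨(chartAt E x).source, ?_, (chartAt E x).open_source, mem_chart_source E x⟩
    intro y hy
    have h1 : y = x := (chartAt E x).injOn hy (mem_chart_source E x) (Subsingleton.elim _ _)
    rw [h1]
    exact hx
  have h1 : (Set.univ : Set M).Subsingleton := isPreconnected_univ.subsingleton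
  exact Set.subsingleton_univ_iff.1 h1

theorem geo (E M : Type) [NormedAddCommGroup E] [NormedSpace ℝ E] [FiniteDimensional ℝ E]
    [TopologicalSpace M] [T2Space M] [ConnectedSpace M] [ChartedSpace E M]
    [IsManifold 𝓘(ℝ, E) 1 M] (D : Type) [Group D] [Finite D] [MulAction D M]
    (hsm : ∀ g : D, ContMDiff 𝓘(ℝ, E) 𝓘(ℝ, E) 1 (fun y : M => g • y))
    (hD : IsPGroup 2 D) (k : ℕ)
    (h : (∃ x : M, (MulAction.orbit D x).ncard ≤ 2 ^ k) ∨
      ∃ T : Tri D M, ¬ (2 : ℤ) ^ (k + 1) ∣ T.chi)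
    (z : D) (N : ℕ) (hN : ∀ (V : Type) [AddCommGroup V] [Module ℝ V] [FiniteDimensional ℝ V]
      (ρ : D →* (V →ₗ[ℝ] V)), finrank ℝ V < N → ρ z = 1)
    (hE : finrank ℝ E * 2 ^ k < N) : ∀ y : M, z • y = y := by
  rcases Nat.eq_zero_or_pos (finrank ℝ E) with h0 | hpos
  · have := dim0 E M h0
    intro y
    exact Subsingleton.elim _ _
  · obtain ⟨B, x, hB, hx⟩ := Q23.ZQ.fixk D hD M k h
    obtain ⟨ρ, hρ⟩ := tLoc E M B (fun g => hsm g.1) x (fun g => hx g.1 g.2)
    obtain ⟨hz, h1⟩ := ind z N hN B (2 ^ k) hB E hpos hE ρ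
    exact hρ ⟨z, hz⟩ h1

end Q175.EX
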