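import Pool.Agent.Q175.EX.Lin

/-!
# Project EX: representations of subgroups of small index
-/

set_option autoImplicit false

namespace Q175.EX

open Module

/-- functions on a group which are equivariant for a representation of a subgroup -/
def IndS {A : Type} [Group A] (B : Subgroup A) {E : Type} [AddCommGroup E] [Module ℝ E]
    (σ : B →* (E →ₗ[ℝ] E)) : Submodule ℝ (A → E) where
  carrier := {f | ∀ (b : B) (a : A), f (b.1 * a) = σ b (f a)}
  zero_mem' := by intro b a; simp
  add_mem' := by
    intro f g hf hg b a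
    rw [Pi.add_apply, Pi.add_apply, hf, hg, map_add]
  smul_mem' := by
    intro c f hf b a
    rw [Pi.smul_apply, Pi.smul_apply, hf, map_smul]

theorem mem_IndS {A : Type} [Group A] (B : Subgroup A) {E : Type} [AddCommGroup E] [Module ℝ E]
    (σ : B →* (E →ₗ[ℝ] E)) (f : A → E) :
    f ∈ IndS B σ ↔ ∀ (b : B) (a : A), f (b.1 * a) = σ b (f a) := Iff.rfl

/-- the dimension of the induced representation -/
theorem finrank_IndS {A : Type} [Group A] [Finite A] (B : Subgroup A) {E : Type} [AddCommGroup E]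
    [Module ℝ E] [FiniteDimensional ℝ E] (σ : B →* (E →ₗ[ℝ] E)) :
    finrank ℝ (IndS B σ) ≤ B.index * finrank ℝ E := by
  classical
  -- representatives of the right cosets
  have hfin : Finite (Quotient (QuotientGroup.rightRel B)) := inferInstance
  let := Fintype.ofFinite (Quotient (QuotientGroup.rightRel B))
  let ev : (A → E) →ₗ[ℝ] (Quotient (QuotientGroup.rightRel B) → E) :=
    LinearMap.funLeft ℝ E (fun q => q.out)
  have hinj : Function.Injective (ev.domRestrict (IndS B σ)) := by
    intro f g hfg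
    apply Subtype.ext
    funext a
    have h1 := congrFun hfg (Quotient.mk _ a)
    change f.1 (Quotient.out (Quotient.mk (QuotientGroup.rightRel B) a)) =
      g.1 (Quotient.out (Quotient.mk (QuotientGroup.rightRel B) a)) at h1
    have h2 : (QuotientGroup.rightRel B) (Quotient.out (Quotient.mk (QuotientGroup.rightRel B) a)) a :=
      Quotient.mk_out a
    rw [QuotientGroup.rightRel_apply] at h2
    set c := Quotient.out (Quotient.mk (QuotientGroup.rightRel B) a) with hc
    have h3 : a = (⟨a * c⁻¹, h2⟩ : B).1 * c := by simp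
    rw [h3, f.2, g.2, h1]
  have h1 := LinearMap.finrank_le_finrank_of_injective hinj
  rw [Module.finrank_pi_fintype, Finset.sum_const, Finset.card_univ, smul_eq_mul] at h1
  refine h1.trans (le_of_eq ?_)
  congr 1
  rw [← Nat.card_eq_fintype_card]
  exact Nat.card_congr (QuotientGroup.quotientRightRelEquivQuotientLeftRel B)

/-- the action of the group on the induced representation -/
def indA {A : Type} [Group A] (B : Subgroup A) {E : Type} [AddCommGroup E] [Module ℝ E]
    (σ : B →* (E →ₗ[ℝ] E)) : A →* (IndS B σ →ₗ[ℝ] IndS B σ) where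
  toFun a :=
    { toFun := fun f => ⟨fun x => f.1 (x * a), fun b x => by
        change f.1 (b.1 * x * a) = σ b (f.1 (x * a))
        rw [mul_assoc]
        exact f.2 b _⟩
      map_add' := fun f g => rfl
      map_smul' := fun c f => rfl }
  map_one' := by
    ext f x
    change f.1 (x * 1) = f.1 x
    rw [mul_one]
  map_mul' := by
    intro a b
    ext f x
    change f.1 (x * (a * b)) = f.1 (x * a * b)
    rw [mul_assoc]

/-- representations of subgroups of small index -/
theorem ind {A : Type} [Group A] [Finite A] (z : A) (N : ℕ)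
    (hN : ∀ (V : Type) [AddCommGroup V] [Module ℝ V] [FiniteDimensional ℝ V]
      (ρ : A →* (V →ₗ[ℝ] V)), finrank ℝ V < N → ρ z = 1)
    (B : Subgroup A) (q : ℕ) (hq : B.index ≤ q) (E : Type) [AddCommGroup E] [Module ℝ E]
    [FiniteDimensional ℝ E] (hE0 : 0 < finrank ℝ E) (hE : finrank ℝ E * q < N)
    (σ : B →* (E →ₗ[ℝ] E)) : ∃ h : z ∈ B, σ ⟨z, h⟩ = 1 := by
  classical
  have key : ∀ (E : Type) [AddCommGroup E] [Module ℝ E] [FiniteDimensional ℝ E]
      (σ : B →* (E →ₗ[ℝ] E)), finrank ℝ E * q < N → ∀ f ∈ IndS B σ, ∀ x, f (x * z) = f x := by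
    intro E _ _ _ σ hE f hf x
    have h1 := hN (IndS B σ) (indA B σ) (lt_of_le_of_lt (finrank_IndS B σ) (by
      refine lt_of_le_of_lt ?_ hE
      rw [mul_comm]
      exact Nat.mul_le_mul_left _ hq))
    have h2 := congrArg (fun g : IndS B σ →ₗ[ℝ] IndS B σ => (g ⟨f, hf⟩).1 x) h1
    exact h2
  have hzB : z ∈ B := by
    have h1 := key ℝ (1 : B →* (ℝ →ₗ[ℝ] ℝ)) (by
      rw [Module.finrank_self, one_mul]
      refine lt_of_le_of_lt ?_ hE
      exact Nat.le_mul_of_pos_left q hE0) (fun x => if x ∈ B then 1 else 0) (by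
      rw [mem_IndS]
      intro b a
      have h2 : b.1 * a ∈ B ↔ a ∈ B := Subgroup.mul_mem_cancel_left B b.2
      simp [h2]) 1
    rw [one_mul] at h1
    by_contra h
    simp [h, B.one_mem] at h1
  refine ⟨hzB, ?_⟩
  ext v
  have h1 := key E σ hE (fun x => if h : x ∈ B then σ ⟨x, h⟩ v else 0) (by
    rw [mem_IndS]
    intro b a
    have h2 : b.1 * a ∈ B ↔ a ∈ B := Subgroup.mul_mem_cancel_left B b.2
    by_cases ha : a ∈ B
    · rw [dif_pos ha, dif_pos (h2.2 ha)]
      have h3 : (⟨b.1 * a, h2.2 ha⟩ : B) = b * ⟨a, ha⟩ := rfl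
      rw [h3, map_mul]
      rfl
    · rw [dif_neg ha, dif_neg (fun h => ha (h2.1 h)), map_zero]) 1
  rw [one_mul, dif_pos hzB, dif_pos B.one_mem] at h1
  rw [h1]
  have h3 : (⟨1, B.one_mem⟩ : B) = 1 := rfl
  rw [h3, map_one]

end Q175.EX
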