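import Mathlib

/-!
# Project EX: the Lie algebra of a simply laced root system and its automorphisms
-/

set_option autoImplicit false

namespace Q175.EX

open Matrix

/-- the bilinear form with matrix `U` -/
def B {n : ℕ} (U : Matrix (Fin n) (Fin n) ℤ) (x y : Fin n → ℤ) : ℤ :=
  ∑ i, ∑ j, x i * U i j * y j

/-- the roots: vectors of norm `2` for the even form `B x y + B y x` -/
def Rt {n : ℕ} (U : Matrix (Fin n) (Fin n) ℤ) : Set (Fin n → ℤ) := {x | B U x x = 1}

/-- the free module with basis `α_1, …, α_n` (Cartan part) and `e_x`, `x` a root -/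
abbrev LA (O : Type) [CommRing O] {n : ℕ} (U : Matrix (Fin n) (Fin n) ℤ) : Type :=
  (Fin n → O) × (Rt U → O)

/-- the sign `(-1)^m` -/
def sg {O : Type} [CommRing O] (m : ℤ) : O := if Even m then 1 else -1

/-- extension of a function on the roots by zero -/
noncomputable def ex {O : Type} [CommRing O] {n : ℕ} {U : Matrix (Fin n) (Fin n) ℤ} (f : Rt U → O)
    (v : Fin n → ℤ) : O :=
  open Classical in if h : v ∈ Rt U then f ⟨v, h⟩ else 0

/-- the pairing `B h y + B y h` of an element of the Cartan part with a lattice vector -/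
def pr {O : Type} [CommRing O] {n : ℕ} (U : Matrix (Fin n) (Fin n) ℤ) (h : Fin n → O)
    (y : Fin n → ℤ) : O := ∑ i, ∑ j, h i * ((U i j + U j i : ℤ) : O) * (y j : O)

/-- the bracket: `[h, h'] = 0`, `[h, e_y] = (h, y) e_y`, `[e_x, e_(-x)] = -x`,
`[e_x, e_y] = (-1)^(B x y) e_(x + y)` -/
noncomputable def br {O : Type} [CommRing O] {n : ℕ} {U : Matrix (Fin n) (Fin n) ℤ}
    (X Y : LA O U) : LA O U :=
  (fun i => -∑ᶠ x : Rt U, X.2 x * ex Y.2 (-x.1) * (x.1 i : O),
   fun y => pr U X.1 y.1 * Y.2 y - pr U Y.1 y.1 * X.2 y +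
     ∑ᶠ x : Rt U, sg (B U x.1 (y.1 - x.1)) * X.2 x * ex Y.2 (y.1 - x.1))

/-- the group of the automorphisms of the Lie algebra -/
def Ga (O : Type) [CommRing O] {n : ℕ} (U : Matrix (Fin n) (Fin n) ℤ) :
    Subgroup (LA O U ≃ₗ[O] LA O U) where
  carrier := {g | ∀ X Y, g (br X Y) = br (g X) (g Y)}
  one_mem' := fun X Y => rfl
  mul_mem' := by
    intro g h hg hh X Y
    change g (h (br X Y)) = br (g (h X)) (g (h Y))
    rw [hh, hg]
  inv_mem' := by
    intro g hg X Y
    have h1 : ∀ Z, g (g⁻¹ Z) = Z := fun Z => LinearEquiv.apply_symm_apply g Z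
    apply g.injective
    rw [h1, hg, h1, h1]

section

variable {O : Type} [CommRing O] {n : ℕ} {U : Matrix (Fin n) (Fin n) ℤ}

theorem B_add_left (x x' y : Fin n → ℤ) : B U (x + x') y = B U x y + B U x' y := by
  unfold B
  rw [← Finset.sum_add_distrib]
  refine Finset.sum_congr rfl fun i _ => ?_
  rw [← Finset.sum_add_distrib]
  refine Finset.sum_congr rfl fun j _ => ?_
  rw [Pi.add_apply]
  ring

theorem B_add_right (x y y' : Fin n → ℤ) : B U x (y + y') = B U x y + B U x y' := by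
  unfold B
  rw [← Finset.sum_add_distrib]
  refine Finset.sum_congr rfl fun i _ => ?_
  rw [← Finset.sum_add_distrib]
  refine Finset.sum_congr rfl fun j _ => ?_
  rw [Pi.add_apply]
  ring

theorem B_smul_left (a : ℤ) (x y : Fin n → ℤ) : B U (a • x) y = a * B U x y := by
  unfold B
  rw [Finset.mul_sum]
  refine Finset.sum_congr rfl fun i _ => ?_
  rw [Finset.mul_sum]
  refine Finset.sum_congr rfl fun j _ => ?_
  rw [Pi.smul_apply, smul_eq_mul]
  ring

theorem B_smul_right (a : ℤ) (x y : Fin n → ℤ) : B U x (a • y) = a * B U x y := by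
  unfold B
  rw [Finset.mul_sum]
  refine Finset.sum_congr rfl fun i _ => ?_
  rw [Finset.mul_sum]
  refine Finset.sum_congr rfl fun j _ => ?_
  rw [Pi.smul_apply, smul_eq_mul]
  ring

theorem B_neg_left (x y : Fin n → ℤ) : B U (-x) y = -B U x y := by
  have := B_smul_left (U := U) (-1) x y
  rwa [neg_one_smul, neg_one_mul] at this

theorem B_neg_right (x y : Fin n → ℤ) : B U x (-y) = -B U x y := by
  have := B_smul_right (U := U) (-1) x y
  rwa [neg_one_smul, neg_one_mul] at this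

theorem B_zero_left (y : Fin n → ℤ) : B U 0 y = 0 := by
  unfold B; simp

theorem B_zero_right (y : Fin n → ℤ) : B U y 0 = 0 := by
  unfold B; simp

theorem B_sub_left (x x' y : Fin n → ℤ) : B U (x - x') y = B U x y - B U x' y := by
  rw [sub_eq_add_neg, B_add_left, B_neg_left, ← sub_eq_add_neg]

theorem B_sub_right (x y y' : Fin n → ℤ) : B U x (y - y') = B U x y - B U x y' := by
  rw [sub_eq_add_neg, B_add_right, B_neg_right, ← sub_eq_add_neg]

theorem sg_even {m : ℤ} (h : Even m) : (sg m : O) = 1 := if_pos h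

theorem sg_odd {m : ℤ} (h : ¬ Even m) : (sg m : O) = -1 := if_neg h

theorem sg_add (a b : ℤ) : (sg (a + b) : O) = sg a * sg b := by
  by_cases ha : Even a <;> by_cases hb : Even b
  · rw [sg_even ha, sg_even hb, sg_even (ha.add hb), one_mul]
  · rw [sg_even ha, sg_odd hb, sg_odd (by rw [Int.even_add]; tauto), one_mul]
  · rw [sg_odd ha, sg_even hb, sg_odd (by rw [Int.even_add]; tauto), mul_one]
  · rw [sg_odd ha, sg_odd hb, sg_even (by rw [Int.even_add]; tauto)]
    ring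

theorem sg_neg (a : ℤ) : (sg (-a) : O) = sg a := by
  by_cases h : Even a
  · rw [sg_even h, sg_even h.neg]
  · rw [sg_odd h, sg_odd (fun h' => h (by simpa using h'.neg))]

theorem sg_mul_self (a : ℤ) : (sg a : O) * sg a = 1 := by
  rw [← sg_add, sg_even ⟨a, rfl⟩]

theorem sg_zero : (sg 0 : O) = 1 := sg_even Even.zero

theorem sg_congr {a b : ℤ} (h : Even (a - b)) : (sg a : O) = sg b := by
  have h1 : a = b + (a - b) := by ring
  rw [h1, sg_add, sg_even h, mul_one]

/-- signs as units -/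
def sgu (m : ℤ) : Oˣ := ⟨sg m, sg m, sg_mul_self m, sg_mul_self m⟩

theorem ex_of {f : Rt U → O} {v : Fin n → ℤ} (h : v ∈ Rt U) : ex f v = f ⟨v, h⟩ := dif_pos h

theorem ex_not {f : Rt U → O} {v : Fin n → ℤ} (h : v ∉ Rt U) : ex f v = 0 := dif_neg h

/-- a monomial automorphism: an involutive isometry and a cochain -/
structure Mo (O : Type) [CommRing O] {n : ℕ} (U : Matrix (Fin n) (Fin n) ℤ) where
  /-- the isometry -/
  W : Matrix (Fin n) (Fin n) ℤ
  inv : W * W = 1
  iso : ∀ x y, B U (W *ᵥ x) (W *ᵥ y) + B U (W *ᵥ y) (W *ᵥ x) = B U x y + B U y x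
  /-- the cochain -/
  c : (Fin n → ℤ) → Oˣ
  coc : ∀ x y, (c (x + y) : O) * sg (B U x y) = c x * c y * sg (B U (W *ᵥ x) (W *ᵥ y))

namespace Mo

variable (g : Mo O U)

theorem WW (x : Fin n → ℤ) : g.W *ᵥ (g.W *ᵥ x) = x := by
  rw [Matrix.mulVec_mulVec, g.inv, Matrix.one_mulVec]

theorem W_rt {x : Fin n → ℤ} (hx : x ∈ Rt U) : g.W *ᵥ x ∈ Rt U := by
  have h := g.iso x x
  change B U x x = 1 at hx
  change B U (g.W *ᵥ x) (g.W *ᵥ x) = 1
  omega

theorem W_rt' {x : Fin n → ℤ} : g.W *ᵥ x ∈ Rt U ↔ x ∈ Rt U :=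
  ⟨fun h => by
    have := g.W_rt h
    rwa [g.WW] at this, g.W_rt⟩

/-- the permutation of the roots -/
def pe : Rt U ≃ Rt U where
  toFun x := ⟨g.W *ᵥ x.1, g.W_rt x.2⟩
  invFun x := ⟨g.W *ᵥ x.1, g.W_rt x.2⟩
  left_inv x := Subtype.ext (g.WW x.1)
  right_inv x := Subtype.ext (g.WW x.1)

theorem pe_pe (x : Rt U) : g.pe (g.pe x) = x := Subtype.ext (g.WW x.1)

theorem c0 : (g.c 0 : O) = 1 := by
  have h := g.coc 0 0
  rw [Matrix.mulVec_zero, B_zero_left, sg_zero, mul_one, mul_one, add_zero] at h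
  have h2 : g.c 0 = g.c 0 * g.c 0 := Units.ext h
  have h3 : g.c 0 = 1 := by
    have := congrArg (fun u => (g.c 0)⁻¹ * u) h2
    simpa using this.symm
  rw [h3, Units.val_one]

theorem c_neg {x : Fin n → ℤ} : (g.c x : O) * g.c (-x) = 1 := by
  have h := g.coc x (-x)
  rw [add_neg_cancel, c0, one_mul, Matrix.mulVec_neg, B_neg_right, B_neg_right, sg_neg, sg_neg] at h
  have h1 : B U (g.W *ᵥ x) (g.W *ᵥ x) = B U x x := by
    have := g.iso x x
    omega
  rw [h1] at h
  calc (g.c x : O) * g.c (-x) = (g.c x * g.c (-x) * sg (B U x x)) * sg (B U x x) := by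
        rw [mul_assoc _ (sg _), sg_mul_self, mul_one]
    _ = 1 := by rw [← h, sg_mul_self]

/-- the matrix on the Cartan part -/
def lin (h : Fin n → O) : Fin n → O := fun i => ∑ j, ((g.W i j : ℤ) : O) * h j

theorem lin_lin (h : Fin n → O) : g.lin (g.lin h) = h := by
  funext i
  unfold lin
  calc ∑ j, ((g.W i j : ℤ) : O) * ∑ k, ((g.W j k : ℤ) : O) * h k
      = ∑ k, (((g.W * g.W) i k : ℤ) : O) * h k := by
        simp_rw [Finset.mul_sum]
        rw [Finset.sum_comm]
        refine Finset.sum_congr rfl fun k _ => ?_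
        rw [Matrix.mul_apply, Int.cast_sum, Finset.sum_mul]
        refine Finset.sum_congr rfl fun j _ => ?_
        push_cast
        ring
    _ = h i := by
        rw [g.inv]
        rw [Finset.sum_eq_single i]
        · rw [Matrix.one_apply_eq, Int.cast_one, one_mul]
        · intro k _ hk
          rw [Matrix.one_apply_ne hk.symm, Int.cast_zero, zero_mul]
        · intro hi
          exact absurd (Finset.mem_univ _) hi

/-- the linear automorphism -/
def toE : LA O U ≃ₗ[O] LA O U where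
  toFun X := (g.lin X.1, fun y => g.c (g.W *ᵥ y.1) * X.2 (g.pe y))
  map_add' X Y := by
    refine Prod.ext (funext fun i => ?_) (funext fun y => ?_)
    · change ∑ j, ((g.W i j : ℤ) : O) * (X.1 j + Y.1 j) = ∑ j, ((g.W i j : ℤ) : O) * X.1 j + ∑ j, ((g.W i j : ℤ) : O) * Y.1 j
      rw [← Finset.sum_add_distrib]
      exact Finset.sum_congr rfl fun j _ => mul_add _ _ _
    · exact mul_add _ _ _
  map_smul' a X := by
    refine Prod.ext (funext fun i => ?_) (funext fun y => ?_)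
    · change ∑ j, ((g.W i j : ℤ) : O) * (a * X.1 j) = a * ∑ j, ((g.W i j : ℤ) : O) * X.1 j
      rw [Finset.mul_sum]
      exact Finset.sum_congr rfl fun j _ => mul_left_comm _ _ _
    · exact mul_left_comm _ _ _
  invFun X := (g.lin X.1, fun y => ((g.c y.1)⁻¹ : Oˣ) * X.2 (g.pe y))
  left_inv X := by
    refine Prod.ext (g.lin_lin X.1) (funext fun y => ?_)
    change (((g.c y.1)⁻¹ : Oˣ) : O) * (g.c (g.W *ᵥ (g.W *ᵥ y.1)) * X.2 (g.pe (g.pe y))) = X.2 y
    rw [g.WW, ← mul_assoc, Units.inv_mul, one_mul, g.pe_pe]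
  right_inv X := by
    refine Prod.ext (g.lin_lin X.1) (funext fun y => ?_)
    change (g.c (g.W *ᵥ y.1) : O) * ((((g.c (g.W *ᵥ y.1))⁻¹ : Oˣ) : O) * X.2 (g.pe (g.pe y))) = X.2 y
    rw [← mul_assoc, Units.mul_inv, one_mul, g.pe_pe]

theorem toE_fst (X : LA O U) : (g.toE X).1 = g.lin X.1 := rfl

theorem toE_snd (X : LA O U) (y : Rt U) : (g.toE X).2 y = g.c (g.W *ᵥ y.1) * X.2 (g.pe y) := rfl

theorem ex_toE (X : LA O U) (v : Fin n → ℤ) :
    ex (g.toE X).2 v = g.c (g.W *ᵥ v) * ex X.2 (g.W *ᵥ v) := by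
  by_cases h : v ∈ Rt U
  · rw [ex_of h, ex_of (g.W_rt h)]
    rfl
  · rw [ex_not h, ex_not (fun h' => h (g.W_rt'.1 h')), mul_zero]

theorem pr_lin (h : Fin n → O) (y : Fin n → ℤ) : pr U (g.lin h) y = pr U h (g.W *ᵥ y) := by
  have e1 : ∀ k : Fin n, ∀ y : Fin n → ℤ, (∑ i, g.W i k * ∑ j, (U i j + U j i) * y j : ℤ) =
      ∑ j, (U k j + U j k) * (g.W *ᵥ y) j := by
    intro k y
    have h1 := g.iso (Pi.single k 1) (g.W *ᵥ y)
    rw [g.WW] at h1
    have h2 : ∀ (v y : Fin n → ℤ), B U v y + B U y v = ∑ i, v i * ∑ j, (U i j + U j i) * y j := by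
      intro v y
      unfold B
      rw [Finset.sum_comm (f := fun i j => y i * U i j * v j), ← Finset.sum_add_distrib]
      refine Finset.sum_congr rfl fun i _ => ?_
      rw [← Finset.sum_add_distrib, Finset.mul_sum]
      refine Finset.sum_congr rfl fun j _ => ?_
      ring
    rw [h2, h2] at h1
    have h3 : ∀ i, (g.W *ᵥ Pi.single k 1) i = g.W i k := by
      intro i
      rw [Matrix.mulVec_single_one]
      rfl
    simp_rw [h3] at h1
    rw [h1, Finset.sum_eq_single k]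
    · rw [Pi.single_eq_same, one_mul]
    · intro i _ hi
      rw [Pi.single_eq_of_ne hi, zero_mul]
    · intro hk
      exact absurd (Finset.mem_univ _) hk
  unfold pr lin
  calc ∑ i, ∑ j, (∑ k, ((g.W i k : ℤ) : O) * h k) * ((U i j + U j i : ℤ) : O) * (y j : O)
      = ∑ k, h k * ((∑ i, g.W i k * ∑ j, (U i j + U j i) * y j : ℤ) : O) := by
        have : ∀ i, ∑ j, (∑ k, ((g.W i k : ℤ) : O) * h k) * ((U i j + U j i : ℤ) : O) * (y j : O) =
            ∑ k, h k * ((g.W i k * ∑ j, (U i j + U j i) * y j : ℤ) : O) := by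
          intro i
          push_cast
          simp_rw [Finset.sum_mul, Finset.mul_sum]
          rw [Finset.sum_comm]
          refine Finset.sum_congr rfl fun k _ => Finset.sum_congr rfl fun j _ => ?_
          ring
        simp_rw [this]
        rw [Finset.sum_comm]
        refine Finset.sum_congr rfl fun k _ => ?_
        rw [← Finset.mul_sum]
        push_cast
        rfl
    _ = ∑ i, ∑ j, h i * ((U i j + U j i : ℤ) : O) * (((g.W *ᵥ y) j : ℤ) : O) := by
        refine Finset.sum_congr rfl fun k _ => ?_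
        rw [e1 k y]
        push_cast
        rw [Finset.mul_sum]
        refine Finset.sum_congr rfl fun j _ => ?_
        ring

theorem toE_mem [Finite (Rt U)] : g.toE ∈ Ga O U := by
  have := Fintype.ofFinite (Rt U)
  intro X Y
  refine Prod.ext (funext fun i => ?_) (funext fun y => ?_)
  · change ∑ j, ((g.W i j : ℤ) : O) * (-∑ᶠ x : Rt U, X.2 x * ex Y.2 (-x.1) * (x.1 j : O)) =
      -∑ᶠ x : Rt U, (g.toE X).2 x * ex (g.toE Y).2 (-x.1) * (x.1 i : O)
    rw [finsum_eq_sum_of_fintype]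
    simp_rw [finsum_eq_sum_of_fintype, mul_neg, Finset.sum_neg_distrib, Finset.mul_sum]
    congr 1
    rw [Finset.sum_comm, ← Equiv.sum_comp g.pe
      (fun x => (g.toE X).2 x * ex (g.toE Y).2 (-x.1) * (x.1 i : O))]
    refine Finset.sum_congr rfl fun x _ => ?_
    rw [toE_snd, ex_toE]
    have h1 : g.pe (g.pe x) = x := g.pe_pe x
    have h2 : g.W *ᵥ (g.pe x).1 = x.1 := g.WW x.1
    rw [Matrix.mulVec_neg, h1, h2]
    have h3 : (((g.pe x).1 i : ℤ) : O) = ∑ j, ((g.W i j : ℤ) : O) * (x.1 j : O) := by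
      change (((g.W *ᵥ x.1) i : ℤ) : O) = _
      rw [Matrix.mulVec, dotProduct]
      push_cast
      rfl
    rw [h3]
    have h4 := g.c_neg (x := x.1)
    calc ∑ j, ((g.W i j : ℤ) : O) * (X.2 x * ex Y.2 (-x.1) * (x.1 j : O))
        = (X.2 x * ex Y.2 (-x.1)) * ∑ j, ((g.W i j : ℤ) : O) * (x.1 j : O) := by
          rw [Finset.mul_sum]
          exact Finset.sum_congr rfl fun j _ => by ring
      _ = ((g.c x.1 : O) * g.c (-x.1)) * (X.2 x * ex Y.2 (-x.1)) *
          ∑ j, ((g.W i j : ℤ) : O) * (x.1 j : O) := by rw [h4, one_mul]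
      _ = _ := by ring
  · change (g.c (g.W *ᵥ y.1) : O) * (pr U X.1 (g.pe y).1 * Y.2 (g.pe y) -
      pr U Y.1 (g.pe y).1 * X.2 (g.pe y) +
      ∑ᶠ x : Rt U, sg (B U x.1 ((g.pe y).1 - x.1)) * X.2 x * ex Y.2 ((g.pe y).1 - x.1)) =
      pr U (g.lin X.1) y.1 * (g.toE Y).2 y - pr U (g.lin Y.1) y.1 * (g.toE X).2 y +
      ∑ᶠ x : Rt U, sg (B U x.1 (y.1 - x.1)) * (g.toE X).2 x * ex (g.toE Y).2 (y.1 - x.1)
    rw [pr_lin, pr_lin, toE_snd, toE_snd, finsum_eq_sum_of_fintype, finsum_eq_sum_of_fintype,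
      ← Equiv.sum_comp g.pe (fun x => sg (B U x.1 (y.1 - x.1)) * (g.toE X).2 x *
        ex (g.toE Y).2 (y.1 - x.1))]
    have hs : (g.c (g.W *ᵥ y.1) : O) *
        (∑ x : Rt U, sg (B U x.1 ((g.pe y).1 - x.1)) * X.2 x * ex Y.2 ((g.pe y).1 - x.1)) =
        ∑ x : Rt U, sg (B U (g.pe x).1 (y.1 - (g.pe x).1)) * (g.toE X).2 (g.pe x) *
          ex (g.toE Y).2 (y.1 - (g.pe x).1) := by
      rw [Finset.mul_sum]
      refine Finset.sum_congr rfl fun x _ => ?_
      rw [toE_snd, ex_toE]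
      have h1 : g.pe (g.pe x) = x := g.pe_pe x
      have h2 : g.W *ᵥ (g.pe x).1 = x.1 := g.WW x.1
      have h3 : g.W *ᵥ (y.1 - (g.pe x).1) = (g.pe y).1 - x.1 := by
        rw [Matrix.mulVec_sub, h2]
        rfl
      rw [h1, h2, h3]
      have h4 := g.coc x.1 ((g.pe y).1 - x.1)
      have h5 : x.1 + ((g.pe y).1 - x.1) = g.W *ᵥ y.1 := by
        rw [add_sub_cancel]
        rfl
      have h6 : g.W *ᵥ ((g.pe y).1 - x.1) = y.1 - (g.pe x).1 := by
        rw [Matrix.mulVec_sub]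
        have : g.W *ᵥ (g.pe y).1 = y.1 := g.WW y.1
        rw [this]
        rfl
      rw [h5, h6] at h4
      have h7 : g.W *ᵥ x.1 = (g.pe x).1 := rfl
      rw [h7] at h4
      calc (g.c (g.W *ᵥ y.1) : O) * (sg (B U x.1 ((g.pe y).1 - x.1)) * X.2 x *
          ex Y.2 ((g.pe y).1 - x.1))
          = ((g.c (g.W *ᵥ y.1) : O) * sg (B U x.1 ((g.pe y).1 - x.1))) *
            (X.2 x * ex Y.2 ((g.pe y).1 - x.1)) := by ring
        _ = _ := by rw [h4]; ring
    rw [← hs]
    have h8 : (g.pe y).1 = g.W *ᵥ y.1 := rfl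
    rw [h8]
    ring

end Mo

end

end Q175.EX
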