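import Mathlib

/-!
# Project EX: dimensions of real representations with sign changing operators
-/

set_option autoImplicit false

namespace Q175.EX

open Module

/-- the `ε`-eigenspace of an involution -/
def eig {V : Type} [AddCommGroup V] [Module ℝ V] (t : V →ₗ[ℝ] V) (ε : ℝ) : Submodule ℝ V where
  carrier := {v | t v = ε • v}
  zero_mem' := by simp
  add_mem' := by
    intro a b ha hb
    change t (a + b) = _
    rw [map_add, ha, hb, smul_add]
  smul_mem' := by
    intro c v hv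
    change t (c • v) = _
    rw [map_smul, hv, smul_comm]

theorem mem_eig {V : Type} [AddCommGroup V] [Module ℝ V] (t : V →ₗ[ℝ] V) (ε : ℝ) (v : V) :
    v ∈ eig t ε ↔ t v = ε • v := Iff.rfl

theorem even_of_J {V : Type} [AddCommGroup V] [Module ℝ V] [FiniteDimensional ℝ V]
    (J : V →ₗ[ℝ] V) (hJ : ∀ v, J (J v) = -v) (hV : 0 < finrank ℝ V) : 2 ≤ finrank ℝ V := by
  by_contra h
  have h1 : finrank ℝ V = 1 := by omega
  obtain ⟨v, hv, hs⟩ := finrank_eq_one_iff'.1 h1
  obtain ⟨c, hc⟩ := hs (J v)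
  have h2 := hJ v
  rw [← hc, map_smul, ← hc, smul_smul] at h2
  have h3 : (c * c + 1) • v = 0 := by rw [add_smul, h2, one_smul, neg_add_cancel]
  rcases smul_eq_zero.1 h3 with h4 | h4
  · nlinarith [mul_self_nonneg c]
  · exact hv h4

theorem half {V : Type} [AddCommGroup V] [Module ℝ V] [FiniteDimensional ℝ V]
    (t n : V →ₗ[ℝ] V) (ht : ∀ v, t (t v) = v) (hn : Function.Injective n)
    (hnt : ∀ v, n (t v) = -t (n v)) : finrank ℝ V = 2 * finrank ℝ (eig t 1) := by
  have hc : IsCompl (eig t 1) (eig t (-1)) := by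
    constructor
    · rw [Submodule.disjoint_def]
      intro v h1 h2
      rw [mem_eig] at h1 h2
      rw [h1, one_smul] at h2
      have h3 : (2 : ℝ) • v = 0 := by
        rw [two_smul]
        nth_rewrite 1 [h2]
        simp
      simpa using h3
    · rw [codisjoint_iff, Submodule.eq_top_iff']
      intro v
      have h1 : (1 / 2 : ℝ) • (v + t v) ∈ eig t 1 := by
        rw [mem_eig, map_smul, map_add, ht, one_smul, add_comm]
      have h2 : (1 / 2 : ℝ) • (v - t v) ∈ eig t (-1) := by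
        rw [mem_eig, map_smul, map_sub, ht, neg_smul, one_smul, ← smul_neg]
        congr 1
        abel
      have h3 := Submodule.add_mem_sup h1 h2
      rw [← smul_add] at h3
      have h4 : (1 / 2 : ℝ) • (v + t v + (v - t v)) = v := by
        rw [show v + t v + (v - t v) = (2 : ℝ) • v by rw [two_smul]; abel, smul_smul]
        norm_num
      rwa [h4] at h3
  have h1 := Submodule.finrank_add_eq_of_isCompl hc
  have hle : ∀ ε : ℝ, finrank ℝ (eig t ε) ≤ finrank ℝ (eig t (-ε)) := by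
    intro ε
    have hm : ∀ v ∈ eig t ε, n v ∈ eig t (-ε) := by
      intro v hv
      rw [mem_eig] at hv ⊢
      have h2 := hnt v
      rw [hv, map_smul] at h2
      rw [neg_smul, h2, neg_neg]
    have := LinearMap.finrank_le_finrank_of_injective (f := n.restrict hm) (by
      intro a b hab
      apply Subtype.ext
      apply hn
      exact congrArg Subtype.val hab)
    exact this
  have h2 := hle 1
  have h3 := hle (-1)
  rw [neg_neg] at h3
  omega

theorem rep2 (r : ℕ) : ∀ (V : Type) [AddCommGroup V] [Module ℝ V] [FiniteDimensional ℝ V],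
    0 < finrank ℝ V → ∀ (τ n : Fin r → (V →ₗ[ℝ] V)), (∀ j v, τ j (τ j v) = v) →
    (∀ j k v, τ j (τ k v) = τ k (τ j v)) → (∀ j, Function.Injective (n j)) →
    (∀ j k, j ≠ k → ∀ v, n j (τ k v) = τ k (n j v)) → (∀ j v, n j (τ j v) = -τ j (n j v)) →
    2 ^ r ≤ finrank ℝ V ∧ ∀ J : V →ₗ[ℝ] V, (∀ v, J (J v) = -v) →
      (∀ j v, J (τ j v) = τ j (J v)) → 2 ^ (r + 1) ≤ finrank ℝ V := by
  induction r with
  | zero =>
    intro V _ _ _ hV τ n _ _ _ _ _
    refine ⟨by rw [pow_zero]; exact hV, fun J hJ _ => ?_⟩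
    simpa using even_of_J J hJ hV
  | succ r ih =>
    intro V _ _ _ hV τ n h1 h2 h3 h4 h5
    have hhalf := half (τ (Fin.last r)) (n (Fin.last r)) (h1 _) (h3 _) (h5 _)
    set W := eig (τ (Fin.last r)) 1 with hW
    have hpres : ∀ f : V →ₗ[ℝ] V, (∀ v, f (τ (Fin.last r) v) = τ (Fin.last r) (f v)) →
        ∀ v ∈ W, f v ∈ W := by
      intro f hf v hv
      rw [hW, mem_eig, one_smul] at hv ⊢
      rw [← hf, hv]
    have hτ : ∀ j : Fin r, ∀ v ∈ W, τ j.castSucc v ∈ W := fun j =>
      hpres _ (fun v => h2 _ _ v)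
    have hn : ∀ j : Fin r, ∀ v ∈ W, n j.castSucc v ∈ W := fun j =>
      hpres _ (fun v => h4 _ _ (Fin.castSucc_lt_last j).ne v)
    have hWpos : 0 < finrank ℝ W := by omega
    obtain ⟨g1, g2⟩ := ih W hWpos (fun j => (τ j.castSucc).restrict (hτ j))
      (fun j => (n j.castSucc).restrict (hn j))
      (fun j v => Subtype.ext (h1 _ _)) (fun j k v => Subtype.ext (h2 _ _ _))
      (fun j a b hab => Subtype.ext (h3 j.castSucc (congrArg Subtype.val hab)))
      (fun j k hjk v => Subtype.ext (h4 _ _ (fun e => hjk (Fin.castSucc_injective r e)) _))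
      (fun j v => Subtype.ext (h5 _ _))
    refine ⟨?_, fun J hJ hJτ => ?_⟩
    · rw [hhalf, pow_succ]
      omega
    · have hJW : ∀ v ∈ W, J v ∈ W := hpres J (hJτ _)
      have g3 := g2 (J.restrict hJW) (fun v => Subtype.ext (hJ _))
        (fun j v => Subtype.ext (hJτ _ _))
      rw [hhalf, pow_succ]
      omega

/-- representations of groups with Heisenberg type relations -/
theorem grp (r : ℕ) (A : Type) [Group A] (z : A) (τ n : Fin r → A) (hz : z * z = 1)
    (hzτ : ∀ j, z * τ j = τ j * z) (hzn : ∀ j, z * n j = n j * z) (hτ : ∀ j, τ j * τ j = 1)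
    (hττ : ∀ j k, τ j * τ k = τ k * τ j) (hnτ : ∀ j k, j ≠ k → n j * τ k = τ k * n j)
    (hnτ' : ∀ j, n j * τ j = z * (τ j * n j))
    (V : Type) [AddCommGroup V] [Module ℝ V] [FiniteDimensional ℝ V] (ρ : A →* (V →ₗ[ℝ] V))
    (hρ : ρ z ≠ 1) :
    2 ^ r ≤ finrank ℝ V ∧ ((∃ J : A, J * J = z ∧ ∀ j, J * τ j = τ j * J) →
      2 ^ (r + 1) ≤ finrank ℝ V) := by
  set W := eig (ρ z) (-1) with hW
  have hmul : ∀ (a b : A) (v : V), ρ (a * b) v = ρ a (ρ b v) := by
    intro a b v
    rw [map_mul]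
    rfl
  have hzz : ∀ v, ρ z (ρ z v) = v := by
    intro v
    rw [← hmul, hz, map_one]
    rfl
  have hWpos : 0 < finrank ℝ W := by
    rw [Module.finrank_pos_iff_exists_ne_zero]
    by_contra h
    push Not at h
    apply hρ
    ext v
    have h1 : v - ρ z v ∈ W := by
      rw [hW, mem_eig, map_sub, hzz, neg_smul, one_smul, neg_sub]
    have h2 := h ⟨_, h1⟩
    have h3 : v - ρ z v = 0 := congrArg Subtype.val h2
    rw [sub_eq_zero] at h3
    exact h3.symm
  have hpres : ∀ a : A, z * a = a * z → ∀ v ∈ W, ρ a v ∈ W := by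
    intro a ha v hv
    rw [hW, mem_eig] at hv ⊢
    rw [← hmul, ha, hmul, hv, map_smul]
  have hWz : ∀ v ∈ W, ρ z v = -v := by
    intro v hv
    rw [hW, mem_eig] at hv
    rw [hv, neg_smul, one_smul]
  have hinj : ∀ a : A, Function.Injective (ρ a) := by
    intro a v w h
    have h1 := congrArg (ρ a⁻¹) h
    rwa [← hmul, ← hmul, inv_mul_cancel, map_one] at h1
  obtain ⟨g1, g2⟩ := rep2 r W hWpos (fun j => (ρ (τ j)).restrict (hpres _ (hzτ j)))
    (fun j => (ρ (n j)).restrict (hpres _ (hzn j)))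
    (fun j v => Subtype.ext (by
      change ρ (τ j) (ρ (τ j) v.1) = v.1
      rw [← hmul, hτ, map_one]
      rfl))
    (fun j k v => Subtype.ext (by
      change ρ (τ j) (ρ (τ k) v.1) = ρ (τ k) (ρ (τ j) v.1)
      rw [← hmul, hττ, hmul]))
    (fun j a b hab => Subtype.ext (hinj _ (congrArg Subtype.val hab)))
    (fun j k hjk v => Subtype.ext (by
      change ρ (n j) (ρ (τ k) v.1) = ρ (τ k) (ρ (n j) v.1)
      rw [← hmul, hnτ j k hjk, hmul]))
    (fun j v => Subtype.ext (by
      change ρ (n j) (ρ (τ j) v.1) = -ρ (τ j) (ρ (n j) v.1)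
      rw [← hmul, hnτ', hmul, hWz, hmul]
      rw [hmul]
      exact hpres _ (hzτ j) _ (hpres _ (hzn j) _ v.2)))
  have hle : finrank ℝ W ≤ finrank ℝ V := Submodule.finrank_le W
  refine ⟨g1.trans hle, ?_⟩
  rintro ⟨J, hJ, hJτ⟩
  have hJz : z * J = J * z := by rw [← hJ, mul_assoc]
  refine (g2 ((ρ J).restrict (hpres _ hJz)) (fun v => Subtype.ext ?_)
    (fun j v => Subtype.ext ?_)).trans hle
  · change ρ J (ρ J v.1) = -v.1
    rw [← hmul, hJ]
    exact hWz v.1 v.2
  · change ρ J (ρ (τ j) v.1) = ρ (τ j) (ρ J v.1)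
    rw [← hmul, hJτ, hmul]

end Q175.EX
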