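import Pool.Agent.Q175.EX.Tor

/-!
# Project EX: the finite group of monomial automorphisms
-/

set_option autoImplicit false

namespace Q175.EX

open Matrix

section

variable {O : Type} [CommRing O] {n m : ℕ} {U : Matrix (Fin n) (Fin n) ℤ}

/-- `g` maps each `e_x` to a power of `u` times `e_y`, where the coordinates `C y` are obtained from
the coordinates `C x` by sign changes which do not depend on `x` -/
def Mon (C : Matrix (Fin m) (Fin n) ℤ) (u : Oˣ) (g : LA O U ≃ₗ[O] LA O U) : Prop :=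
  ∃ δ : Fin m → ℤ, (∀ a, δ a = 1 ∨ δ a = -1) ∧ ∀ x : Rt U, ∃ y : Rt U,
    (∀ a, (C *ᵥ y.1) a = δ a * (C *ᵥ x.1) a) ∧ ∃ k : ℤ, g (ev x) = ((u ^ k : Oˣ) : O) • ev y

/-- the subgroup of `Γ` generated by the monomial automorphisms -/
def Dm (Γ : Subgroup (LA O U ≃ₗ[O] LA O U)) (C : Matrix (Fin m) (Fin n) ℤ) (u : Oˣ) :
    Subgroup Γ := Subgroup.closure {g | Mon C u g.1}

theorem Mon.mul {C : Matrix (Fin m) (Fin n) ℤ} {u : Oˣ} {g h : LA O U ≃ₗ[O] LA O U}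
    (hg : Mon C u g) (hh : Mon C u h) : Mon C u (g * h) := by
  obtain ⟨δ, hδ, H⟩ := hg
  obtain ⟨δ', hδ', H'⟩ := hh
  refine ⟨fun a => δ a * δ' a, fun a => ?_, fun x => ?_⟩
  · change δ a * δ' a = 1 ∨ δ a * δ' a = -1
    rcases hδ a with h1 | h1 <;> rcases hδ' a with h2 | h2 <;> rw [h1, h2] <;> norm_num
  · obtain ⟨y, hy, k, hk⟩ := H' x
    obtain ⟨w, hw, l, hl⟩ := H y
    refine ⟨w, fun a => by rw [hw, hy, mul_assoc], l + k, ?_⟩
    change g (h (ev x)) = _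
    rw [hk, map_smul, hl, smul_smul, ← Units.val_mul, ← _root_.zpow_add, add_comm]

theorem Mon.inv {C : Matrix (Fin m) (Fin n) ℤ} (hC : Function.Injective C.mulVec) {u : Oˣ}
    {g : LA O U ≃ₗ[O] LA O U} (hg : Mon C u g) : Mon C u g⁻¹ := by
  obtain ⟨δ, hδ, H⟩ := hg
  have hδδ : ∀ a, δ a * δ a = 1 := by
    intro a
    rcases hδ a with h | h <;> rw [h] <;> norm_num
  refine ⟨δ, hδ, fun y => ?_⟩
  obtain ⟨x, hx, -⟩ := H y
  obtain ⟨y', hy', k, hk⟩ := H x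
  have e : y' = y := by
    apply Subtype.ext
    apply hC
    funext a
    rw [hy', hx, ← mul_assoc, hδδ, one_mul]
  rw [e] at hk
  refine ⟨x, hx, -k, ?_⟩
  apply g.injective
  have h1 : ∀ Z, g (g⁻¹ Z) = Z := fun Z => LinearEquiv.apply_symm_apply g Z
  rw [h1, map_smul, hk, smul_smul, ← Units.val_mul, ← _root_.zpow_add, neg_add_cancel, zpow_zero,
    Units.val_one, one_smul]

theorem Mon.one {C : Matrix (Fin m) (Fin n) ℤ} {u : Oˣ} : Mon C u (1 : LA O U ≃ₗ[O] LA O U) :=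
  ⟨fun _ => 1, fun _ => Or.inl rfl, fun x => ⟨x, fun a => (one_mul _).symm, 0, by
    rw [zpow_zero, Units.val_one, one_smul]
    rfl⟩⟩

theorem mon_of_mem {Γ : Subgroup (LA O U ≃ₗ[O] LA O U)} {C : Matrix (Fin m) (Fin n) ℤ}
    (hC : Function.Injective C.mulVec) {u : Oˣ} {g : Γ} (hg : g ∈ Dm Γ C u) : Mon C u g.1 := by
  unfold Dm at hg
  induction hg using Subgroup.closure_induction with
  | mem x hx => exact hx
  | one => exact Mon.one
  | mul x y _ _ hx hy => exact hx.mul hy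
  | inv x _ hx => exact hx.inv hC

theorem Mon.mem {Γ : Subgroup (LA O U ≃ₗ[O] LA O U)} {C : Matrix (Fin m) (Fin n) ℤ} {u : Oˣ}
    {g : LA O U ≃ₗ[O] LA O U} (hg : Mon C u g) (hΓ : g ∈ Γ) : (⟨g, hΓ⟩ : Γ) ∈ Dm Γ C u :=
  Subgroup.subset_closure hg

theorem finite_D [Finite (Rt U)] (hU : ∀ j, U j j = 1) {Γ : Subgroup (LA O U ≃ₗ[O] LA O U)}
    (hΓ : Γ ≤ Ga O U) {C : Matrix (Fin m) (Fin n) ℤ} (hC : Function.Injective C.mulVec) {u : Oˣ}
    (hu : u ^ 4 = 1) : Finite (Dm Γ C u) := by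
  let P : Type := {Z : LA O U //
    ∃ (y : Rt U) (k : Fin 4), Z = ((u ^ (k : ℕ) : Oˣ) : O) • (ev y : LA O U)}
  have hP : Finite P := by
    have h1 : (Set.range fun q : Rt U × Fin 4 =>
        ((u ^ (q.2 : ℕ) : Oˣ) : O) • (ev q.1 : LA O U)).Finite :=
      Set.finite_range _
    apply Set.Finite.to_subtype
    refine h1.subset ?_
    rintro Z ⟨y, k, rfl⟩
    exact ⟨(y, k), rfl⟩
  have hmod : ∀ k : ℤ, ∃ l : Fin 4, u ^ k = u ^ (l : ℕ) := by
    intro k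
    have h0 : 0 ≤ k % 4 := Int.emod_nonneg _ (by norm_num)
    have h1 : k % 4 < 4 := Int.emod_lt_of_pos _ (by norm_num)
    refine ⟨⟨(k % 4).toNat, by omega⟩, ?_⟩
    have h2 : k = (k % 4) + 4 * (k / 4) := (Int.emod_add_mul_ediv k 4).symm
    have h4 : u ^ (4 : ℤ) = 1 := by exact_mod_cast hu
    conv_lhs => rw [h2, _root_.zpow_add, _root_.zpow_mul, h4, _root_.one_zpow, mul_one]
    rw [← zpow_natCast]
    congr 1
    change k % 4 = (((k % 4).toNat : ℕ) : ℤ)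
    rw [Int.toNat_of_nonneg h0]
  let F : Dm Γ C u → (Rt U → P) := fun g x => ⟨g.1.1 (ev x), by
    obtain ⟨δ, hδ, H⟩ := mon_of_mem hC g.2
    obtain ⟨y, hy, k, hk⟩ := H x
    obtain ⟨l, hl⟩ := hmod k
    exact ⟨y, l, by rw [hk, hl]⟩⟩
  refine Finite.of_injective F ?_
  intro g h hgh
  apply Subtype.ext
  apply Subtype.ext
  refine det_ev hU _ _ (hΓ g.1.2) (hΓ h.1.2) fun x => ?_
  have := congrFun hgh x
  exact congrArg Subtype.val this

theorem pgroup_D [Finite (Rt U)] (hU : ∀ j, U j j = 1) {Γ : Subgroup (LA O U ≃ₗ[O] LA O U)}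
    (hΓ : Γ ≤ Ga O U) {C : Matrix (Fin m) (Fin n) ℤ} (hC : Function.Injective C.mulVec) {u : Oˣ}
    (hu : u ^ 4 = 1) : IsPGroup 2 (Dm Γ C u) := by
  intro g
  refine ⟨3, ?_⟩
  obtain ⟨δ, hδ, H⟩ := mon_of_mem hC g.2
  have hδδ : ∀ a, δ a * δ a = 1 := by
    intro a
    rcases hδ a with h | h <;> rw [h] <;> norm_num
  have h2 : ∀ x : Rt U, ∃ k : ℤ, g.1.1 (g.1.1 (ev x)) = ((u ^ k : Oˣ) : O) • ev x := by
    intro x
    obtain ⟨y, hy, k, hk⟩ := H x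
    obtain ⟨w, hw, l, hl⟩ := H y
    have e : w = x := by
      apply Subtype.ext
      apply hC
      funext a
      rw [hw, hy, ← mul_assoc, hδδ, one_mul]
    rw [e] at hl
    refine ⟨k + l, ?_⟩
    rw [hk, map_smul, hl, smul_smul, ← Units.val_mul, ← _root_.zpow_add]
  apply Subtype.ext
  apply Subtype.ext
  refine det_ev hU _ _ (hΓ (g ^ 2 ^ 3).1.2) (hΓ (1 : Dm Γ C u).1.2) fun x => ?_
  obtain ⟨k, hk⟩ := h2 x
  have hs : ∀ a : Oˣ, g.1.1 (g.1.1 ((a : O) • ev x)) = ((a * u ^ k : Oˣ) : O) • ev x := by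
    intro a
    rw [map_smul, map_smul, hk, smul_smul, ← Units.val_mul]
  have h8 : (g ^ 2 ^ 3).1.1 (ev x) =
      g.1.1 (g.1.1 (g.1.1 (g.1.1 (g.1.1 (g.1.1 (g.1.1 (g.1.1 (ev x)))))))) := rfl
  rw [h8, hk, hs, hs, hs]
  have h4 : u ^ k * u ^ k * u ^ k * u ^ k = 1 := by
    rw [← _root_.zpow_add, ← _root_.zpow_add, ← _root_.zpow_add,
      show k + k + k + k = (4 : ℤ) * k by ring, _root_.zpow_mul]
    have h4 : u ^ (4 : ℤ) = 1 := by exact_mod_cast hu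
    rw [h4, _root_.one_zpow]
  rw [h4, Units.val_one, one_smul]
  rfl

/-- finiteness of the root system -/
theorem finite_rt {C : Matrix (Fin m) (Fin n) ℤ} (hC : Function.Injective C.mulVec) {ω : Fin m → ℤ}
    (hω : ∀ a, 0 < ω a) (hUC : ∀ x, 4 * (B U x x + B U x x) = ∑ a, ω a * ((C *ᵥ x) a * (C *ᵥ x) a)) :
    Finite (Rt U) := by
  have h1 : ∀ x ∈ Rt U, ∀ a, (C *ᵥ x) a ∈ Set.Icc (-8 : ℤ) 8 := by
    intro x hx a
    change B U x x = 1 at hx
    have h2 := hUC x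
    rw [hx] at h2
    have h3 : ω a * ((C *ᵥ x) a * (C *ᵥ x) a) ≤ 8 := by
      have := Finset.single_le_sum (f := fun a => ω a * ((C *ᵥ x) a * (C *ᵥ x) a))
        (fun b _ => mul_nonneg (hω b).le (mul_self_nonneg _)) (Finset.mem_univ a)
      have h4 : ω a * ((C *ᵥ x) a * (C *ᵥ x) a) ≤
          ∑ a, ω a * ((C *ᵥ x) a * (C *ᵥ x) a) := this
      rw [← h2] at h4
      linarith
    have h5 := hω a
    constructor <;> nlinarith [mul_self_nonneg ((C *ᵥ x) a)]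
  have h2 : (Set.pi Set.univ fun _ : Fin m => Set.Icc (-8 : ℤ) 8).Finite :=
    Set.Finite.pi fun _ => Set.finite_Icc _ _
  apply Set.Finite.to_subtype
  refine Set.Finite.of_finite_image (f := C.mulVec) (h2.subset ?_) hC.injOn
  rintro _ ⟨x, hx, rfl⟩ a _
  exact h1 x hx a

end

end Q175.EX
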