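import Pool.Agent.Q175.EX.Uni
import Pool.Agent.Q175.EX.Lin
import Pool.Agent.Q175.EX.Geo

/-!
# Project EX: the relations in the finite group, and the main theorem
-/

set_option autoImplicit false

open scoped Manifold ContDiff

namespace Q175.EX

open Matrix Module Q4.ZI

section

variable {O : Type} [CommRing O] {n m : ℕ} {U : Matrix (Fin n) (Fin n) ℤ}

/-- the coordinate functional -/
def row (C : Matrix (Fin m) (Fin n) ℤ) (a : Fin m) : Fin n → ℤ := fun i => C a i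

theorem row_dot (C : Matrix (Fin m) (Fin n) ℤ) (a : Fin m) (x : Fin n → ℤ) :
    row C a ⬝ᵥ x = (C *ᵥ x) a := rfl

/-- monomial with given signs -/
def MonD (C : Matrix (Fin m) (Fin n) ℤ) (u : Oˣ) (δ : Fin m → ℤ) (g : LA O U ≃ₗ[O] LA O U) : Prop :=
  ∀ x : Rt U, ∃ y : Rt U, (∀ a, (C *ᵥ y.1) a = δ a * (C *ᵥ x.1) a) ∧
    ∃ k : ℤ, g (ev x) = ((u ^ k : Oˣ) : O) • ev y

theorem MonD.mul {C : Matrix (Fin m) (Fin n) ℤ} {u : Oˣ} {δ δ' : Fin m → ℤ}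
    {g h : LA O U ≃ₗ[O] LA O U} (hg : MonD C u δ g) (hh : MonD C u δ' h) :
    MonD C u (fun a => δ a * δ' a) (g * h) := by
  intro x
  obtain ⟨y, hy, k, hk⟩ := hh x
  obtain ⟨w, hw, l, hl⟩ := hg y
  refine ⟨w, fun a => by rw [hw, hy, mul_assoc], l + k, ?_⟩
  change g (h (ev x)) = _
  rw [hk, map_smul, hl, smul_smul, ← Units.val_mul, ← _root_.zpow_add, add_comm]

/-- the torus element `e_x ↦ (-1)^((Cx)_p) e_x` -/
theorem tor_sg (l : Fin n → ℤ) (x : Rt U) :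
    (tor (U := U) (-1 : Oˣ) l).toE (ev x) = (sg (l ⬝ᵥ x.1) : O) • ev x := by
  rw [tor_ev]
  congr 1
  by_cases h : Even (l ⬝ᵥ x.1)
  · rw [sg_even h, h.neg_one_zpow, Units.val_one]
  · rw [sg_odd h, (Int.not_even_iff_odd.1 h).neg_one_zpow, Units.val_neg, Units.val_one]

theorem tor_MonD (C : Matrix (Fin m) (Fin n) ℤ) (u : Oˣ) (l : Fin n → ℤ) :
    MonD C u (fun _ => 1) (tor (U := U) u l).toE := fun x =>
  ⟨x, fun _ => (one_mul _).symm, l ⬝ᵥ x.1, tor_ev u l x⟩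

theorem sg_zpow {u : Oˣ} (hu : ∃ k : ℤ, u ^ k = -1) (a : ℤ) : ∃ k : ℤ, (sg a : O) = ((u ^ k : Oˣ) : O) := by
  obtain ⟨k, hk⟩ := hu
  by_cases h : Even a
  · exact ⟨0, by rw [sg_even h, zpow_zero, Units.val_one]⟩
  · exact ⟨k, by rw [sg_odd h, hk, Units.val_neg, Units.val_one]⟩

theorem tors_MonD (C : Matrix (Fin m) (Fin n) ℤ) {u : Oˣ} (hu : ∃ k : ℤ, u ^ k = -1)
    (l : Fin n → ℤ) : MonD C u (fun _ => 1) (tor (U := U) (-1 : Oˣ) l).toE := fun x =>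
  ⟨x, fun a => (one_mul _).symm, by
    obtain ⟨k, hk⟩ := sg_zpow hu (l ⬝ᵥ x.1)
    exact ⟨k, by rw [tor_sg, hk]⟩⟩

theorem MonD.mon {C : Matrix (Fin m) (Fin n) ℤ} {u : Oˣ} {δ : Fin m → ℤ}
    {g : LA O U ≃ₗ[O] LA O U} (hg : MonD C u δ g) (hδ : ∀ a, δ a = 1 ∨ δ a = -1) : Mon C u g :=
  ⟨δ, hδ, hg⟩

/-- a monomial element and a torus element of order two -/
theorem MonD.comm_ev {C : Matrix (Fin m) (Fin n) ℤ} {u : Oˣ} {δ : Fin m → ℤ}
    {g : LA O U ≃ₗ[O] LA O U} (hg : MonD C u δ g) (l l' : Fin n → ℤ)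
    (h : ∀ x y : Rt U, (∀ a, (C *ᵥ y.1) a = δ a * (C *ᵥ x.1) a) →
      Even (l ⬝ᵥ x.1 - (l' ⬝ᵥ y.1 + l ⬝ᵥ y.1))) (x : Rt U) :
    g ((tor (U := U) (-1 : Oˣ) l).toE (ev x)) =
      (tor (U := U) (-1 : Oˣ) l').toE ((tor (U := U) (-1 : Oˣ) l).toE (g (ev x))) := by
  obtain ⟨y, hy, k, hk⟩ := hg x
  rw [tor_sg, map_smul, hk, map_smul, map_smul, tor_sg, map_smul, tor_sg]
  rw [smul_comm]
  congr 1
  rw [smul_smul, sg_congr (h x y hy), sg_add, mul_comm]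

/-- torus elements with entries `1`, `-1` -/
abbrev T (O : Type) [CommRing O] (U : Matrix (Fin n) (Fin n) ℤ) (l : Fin n → ℤ) :
    LA O U ≃ₗ[O] LA O U := (tor (U := U) (-1 : Oˣ) l).toE

variable [Finite (Rt U)] (hU : ∀ j, U j j = 1)

include hU

theorem T_rel {C : Matrix (Fin m) (Fin n) ℤ} {u : Oˣ} {δ : Fin m → ℤ}
    {g : LA O U ≃ₗ[O] LA O U} (hg : MonD C u δ g) (hG : g ∈ Ga O U) (l l' : Fin n → ℤ)
    (h : ∀ x y : Rt U, (∀ a, (C *ᵥ y.1) a = δ a * (C *ᵥ x.1) a) →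
      Even (l ⬝ᵥ x.1 - (l' ⬝ᵥ y.1 + l ⬝ᵥ y.1))) : g * T O U l = T O U l' * (T O U l * g) :=
  det_ev hU _ _ (mul_mem hG (Mo.toE_mem _)) (mul_mem (Mo.toE_mem _) (mul_mem (Mo.toE_mem _) hG))
    (fun x => hg.comm_ev l l' h x)

theorem T_zero : T O U 0 = 1 := by
  refine det_ev hU _ _ (Mo.toE_mem _) (one_mem _) fun x => ?_
  rw [tor_sg, zero_dotProduct, sg_zero, one_smul]
  rfl

theorem T_comm {C : Matrix (Fin m) (Fin n) ℤ} {u : Oˣ} {δ : Fin m → ℤ}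
    {g : LA O U ≃ₗ[O] LA O U} (hg : MonD C u δ g) (hG : g ∈ Ga O U) (l : Fin n → ℤ)
    (h : ∀ x y : Rt U, (∀ a, (C *ᵥ y.1) a = δ a * (C *ᵥ x.1) a) → l ⬝ᵥ x.1 = l ⬝ᵥ y.1) :
    g * T O U l = T O U l * g := by
  rw [T_rel hU hg hG l 0 (fun x y hxy => by
    rw [zero_dotProduct, zero_add, h x y hxy, sub_self]
    exact Even.zero), T_zero hU, one_mul]

theorem tor_comm (u u' : Oˣ) (l l' : Fin n → ℤ) :
    (tor (U := U) u l).toE * (tor (U := U) u' l').toE =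
      (tor (U := U) u' l').toE * (tor (U := U) u l).toE := by
  refine det_ev hU _ _ (mul_mem (Mo.toE_mem _) (Mo.toE_mem _))
    (mul_mem (Mo.toE_mem _) (Mo.toE_mem _)) fun x => ?_
  change (tor (U := U) u l).toE ((tor (U := U) u' l').toE (ev x)) =
    (tor (U := U) u' l').toE ((tor (U := U) u l).toE (ev x))
  rw [tor_ev, tor_ev, map_smul, map_smul, tor_ev, tor_ev, smul_comm]

theorem tor_sq (u : Oˣ) (hu : u * u = -1) (l : Fin n → ℤ) :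
    (tor (U := U) u l).toE * (tor (U := U) u l).toE = T O U l := by
  refine det_ev hU _ _ (mul_mem (Mo.toE_mem _) (Mo.toE_mem _)) (Mo.toE_mem _) fun x => ?_
  change (tor (U := U) u l).toE ((tor (U := U) u l).toE (ev x)) =
    (tor (U := U) (-1 : Oˣ) l).toE (ev x)
  rw [tor_ev, map_smul, tor_ev, tor_ev, smul_smul, ← Units.val_mul, ← mul_zpow, hu]

theorem T_sq (l : Fin n → ℤ) : T O U l * T O U l = 1 := by
  refine det_ev hU _ _ (mul_mem (Mo.toE_mem _) (Mo.toE_mem _)) (one_mem _) fun x => ?_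
  change (tor (U := U) (-1 : Oˣ) l).toE ((tor (U := U) (-1 : Oˣ) l).toE (ev x)) = ev x
  rw [tor_sg, map_smul, tor_sg, smul_smul, sg_mul_self, one_smul]

omit [Finite (Rt U)] hU in
theorem T_apply (C : Matrix (Fin m) (Fin n) ℤ) (p : Fin m) (X : LA O U) :
    T O U (C p) X = (X.1, fun y => sg ((C *ᵥ y.1) p) * X.2 y) := by
  refine Prod.ext (funext fun i => ?_) (funext fun y => ?_)
  · change ∑ j, (((1 : Matrix (Fin n) (Fin n) ℤ) i j : ℤ) : O) * X.1 j = X.1 i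
    rw [Finset.sum_eq_single i]
    · rw [Matrix.one_apply_eq, Int.cast_one, one_mul]
    · intro j _ hj
      rw [Matrix.one_apply_ne hj.symm, Int.cast_zero, zero_mul]
    · intro hi
      exact absurd (Finset.mem_univ _) hi
  · change (((-1 : Oˣ) ^ (C p ⬝ᵥ ((1 : Matrix (Fin n) (Fin n) ℤ) *ᵥ y.1)) : Oˣ) : O) *
      X.2 ((tor (U := U) (-1 : Oˣ) (C p)).pe y) = sg ((C *ᵥ y.1) p) * X.2 y
    have h1 : (tor (U := U) (-1 : Oˣ) (C p)).pe y = y := Subtype.ext (Matrix.one_mulVec y.1)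
    have h2 : C p ⬝ᵥ y.1 = (C *ᵥ y.1) p := rfl
    rw [h1, Matrix.one_mulVec, h2]
    congr 1
    by_cases h : Even ((C *ᵥ y.1) p)
    · rw [sg_even h, h.neg_one_zpow, Units.val_one]
    · rw [sg_odd h, (Int.not_even_iff_odd.1 h).neg_one_zpow, Units.val_neg, Units.val_one]

theorem main {C : Matrix (Fin m) (Fin n) ℤ} (hC : Function.Injective C.mulVec)
    (hpar : ∀ i a b, Even (C a i + C b i)) (p : Fin m) {r : ℕ} (a : Fin r → Fin m)
    (Γ : Subgroup (LA O U ≃ₗ[O] LA O U)) (hΓ : Γ ≤ Ga O U) (u : Oˣ) (hu : u = -1 ∨ u * u = -1)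
    (htp : T O U (C p) ∈ Γ) (hth : ∀ (j : Fin r) (l : Fin n → ℤ),
      (∀ x, 2 * (l ⬝ᵥ x) = (C *ᵥ x) p + (C *ᵥ x) (a j)) → T O U l ∈ Γ)
    (htu : u * u = -1 → (tor (U := U) u (C p)).toE ∈ Γ)
    (δ : Fin r → Fin m → ℤ) (hδ : ∀ j b, δ j b = 1 ∨ δ j b = -1) (hδp : ∀ j, δ j p = 1)
    (hδa : ∀ j k, j ≠ k → δ j (a k) = 1) (hδj : ∀ j, δ j (a j) = -1)
    (ν : Fin r → (LA O U ≃ₗ[O] LA O U)) (hν : ∀ j, ν j ∈ Γ) (hνD : ∀ j, MonD C u (δ j) (ν j))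
    (E M : Type) [NormedAddCommGroup E] [NormedSpace ℝ E] [FiniteDimensional ℝ E]
    [TopologicalSpace M] [T2Space M] [ConnectedSpace M] [ChartedSpace E M]
    [IsManifold 𝓘(ℝ, E) 1 M] [MulAction Γ M]
    (hsm : ∀ g : Γ, ContMDiff 𝓘(ℝ, E) 𝓘(ℝ, E) 1 (fun y : M => g • y)) (k : ℕ)
    (hD : (∃ x : M, (MulAction.orbit (Dm Γ C u) x).ncard ≤ 2 ^ k) ∨
      ∃ t : Tri (Dm Γ C u) M, ¬ (2 : ℤ) ^ (k + 1) ∣ t.chi)
    (hE : (u = -1 ∧ finrank ℝ E * 2 ^ k < 2 ^ r) ∨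
      (u * u = -1 ∧ finrank ℝ E * 2 ^ k < 2 ^ (r + 1))) :
    ∀ y : M, (⟨T O U (C p), htp⟩ : Γ) • y = y := by
  classical
  have hu4 : u ^ 4 = 1 := by
    rcases hu with h | h
    · rw [h]
      exact Even.neg_one_pow ⟨2, rfl⟩
    · have : u ^ 4 = (u * u) ^ 2 := by rw [← sq, ← pow_mul]
      rw [this, h]
      exact Even.neg_one_pow ⟨1, rfl⟩
  have huk : ∃ k : ℤ, u ^ k = -1 := by
    rcases hu with h | h
    · exact ⟨1, by rw [zpow_one, h]⟩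
    · exact ⟨2, by rw [← h]; exact zpow_two u⟩
  have hfin : Finite (Dm Γ C u) := finite_D hU hΓ hC hu4
  have hp2 : IsPGroup 2 (Dm Γ C u) := pgroup_D hU hΓ hC hu4
  -- the elements
  let hl : Fin r → (Fin n → ℤ) := fun j i => (C p i + C (a j) i) / 2
  have hhl : ∀ j (x : Fin n → ℤ), 2 * (hl j ⬝ᵥ x) = (C *ᵥ x) p + (C *ᵥ x) (a j) := by
    intro j x
    rw [dotProduct, Finset.mul_sum]
    change _ = (C p) ⬝ᵥ x + (C (a j)) ⬝ᵥ x
    rw [dotProduct, dotProduct, ← Finset.sum_add_distrib]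
    refine Finset.sum_congr rfl fun i _ => ?_
    have h1 : 2 * ((C p i + C (a j) i) / 2) = C p i + C (a j) i :=
      Int.mul_ediv_cancel' (hpar i p (a j)).two_dvd
    calc 2 * ((C p i + C (a j) i) / 2 * x i) = (2 * ((C p i + C (a j) i) / 2)) * x i := by ring
      _ = _ := by rw [h1]; ring
  have hparx : ∀ (x : Fin n → ℤ) (b c : Fin m), Even ((C *ᵥ x) b - (C *ᵥ x) c) := by
    intro x b c
    change Even ((C b) ⬝ᵥ x - (C c) ⬝ᵥ x)
    rw [dotProduct, dotProduct, ← Finset.sum_sub_distrib]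
    refine Finset.even_sum _ fun i _ => ?_
    obtain ⟨w, hw⟩ := hpar i b c
    exact ⟨(w - C c i) * x i, by linear_combination x i * hw⟩
  have hmon1 : ∀ (l : Fin n → ℤ) (h : T O U l ∈ Γ), (⟨T O U l, h⟩ : Γ) ∈ Dm Γ C u := fun l h =>
    (tors_MonD C huk l).mon (fun _ => Or.inl rfl) |>.mem h
  have hmon2 : ∀ (l : Fin n → ℤ) (h : (tor (U := U) u l).toE ∈ Γ),
      (⟨(tor (U := U) u l).toE, h⟩ : Γ) ∈ Dm Γ C u := fun l h =>
    (tor_MonD C u l).mon (fun _ => Or.inl rfl) |>.mem h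
  have hmon3 : ∀ j, (⟨ν j, hν j⟩ : Γ) ∈ Dm Γ C u := fun j =>
    ((hνD j).mon (hδ j)).mem (hν j)
  let lp : Fin n → ℤ := C p
  have hlp : ∀ x : Fin n → ℤ, lp ⬝ᵥ x = (C *ᵥ x) p := fun x => rfl
  let z : Dm Γ C u := ⟨⟨T O U lp, htp⟩, hmon1 lp htp⟩
  let τ : Fin r → Dm Γ C u := fun j => ⟨⟨T O U (hl j), hth j _ (hhl j)⟩, hmon1 _ _⟩
  let N : Fin r → Dm Γ C u := fun j => ⟨⟨ν j, hν j⟩, hmon3 j⟩
  have hgrp := grp r (Dm Γ C u) z τ N
    (Subtype.ext (Subtype.ext (T_sq hU lp)))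
    (fun j => Subtype.ext (Subtype.ext (tor_comm hU _ _ _ _)))
    (fun j => Subtype.ext (Subtype.ext (T_comm hU (hνD j) (hΓ (hν j)) lp (by
      intro x y hxy
      rw [hlp, hlp, hxy, hδp, one_mul])).symm))
    (fun j => Subtype.ext (Subtype.ext (T_sq hU _)))
    (fun j k => Subtype.ext (Subtype.ext (tor_comm hU _ _ _ _)))
    (fun j k hjk => Subtype.ext (Subtype.ext (T_comm hU (hνD j) (hΓ (hν j)) (hl k) (by
      intro x y hxy
      have h1 := hhl k x.1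
      have h2 := hhl k y.1
      rw [hxy, hxy, hδp, hδa j k hjk, one_mul, one_mul] at h2
      omega))))
    (fun j => Subtype.ext (Subtype.ext (T_rel hU (hνD j) (hΓ (hν j)) (hl j) lp (by
      intro x y hxy
      have h1 := hhl j x.1
      have h2 := hhl j y.1
      have h3 := hparx x.1 (a j) p
      rw [hxy, hxy, hδp, hδj j, one_mul] at h2
      rw [hlp, hxy, hδp, one_mul]
      obtain ⟨w, hw⟩ := h3
      exact ⟨w, by omega⟩))))
  have hN : ∀ (V : Type) [AddCommGroup V] [Module ℝ V] [FiniteDimensional ℝ V]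
      (ρ : Dm Γ C u →* (V →ₗ[ℝ] V)), finrank ℝ V < (if u = -1 ∧ finrank ℝ E * 2 ^ k < 2 ^ r then
        2 ^ r else 2 ^ (r + 1)) → ρ z = 1 := by
    intro V _ _ _ ρ hV
    by_contra hρ
    obtain ⟨h1, h2⟩ := hgrp V ρ hρ
    split_ifs at hV with hc
    · omega
    · have hu2 : u * u = -1 := by
        rcases hE with h | h
        · exact absurd h hc
        · exact h.1
      have h3 := h2 ⟨⟨⟨(tor (U := U) u lp).toE, htu hu2⟩, hmon2 lp _⟩, Subtype.ext (Subtype.ext (tor_sq hU u hu2 lp)),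
        fun j => Subtype.ext (Subtype.ext (tor_comm hU _ _ _ _))⟩
      omega
  have hE' : finrank ℝ E * 2 ^ k < (if u = -1 ∧ finrank ℝ E * 2 ^ k < 2 ^ r then
        2 ^ r else 2 ^ (r + 1)) := by
    split_ifs with hc
    · exact hc.2
    · rcases hE with h | h
      · exact absurd h hc
      · exact h.2
  exact geo E M (Dm Γ C u) (fun g => hsm g.1) hp2 k hD z _ hN hE'

end

end Q175.EX
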