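import Pool.Agent.Q175.EX.Flip

/-!
# Project EX: the objects of the statements
-/

set_option autoImplicit false

open scoped Manifold ContDiff

namespace Q175.EX

open Matrix Module Q4.ZI

section

variable (O : Type) [CommRing O] {n m : ℕ} (U : Matrix (Fin n) (Fin n) ℤ)

/-- the linear automorphisms of the module `LA O U` -/
def Au : Type := LA O U ≃ₗ[O] LA O U

instance AuGroup : Group (Au O U) := LinearEquiv.automorphismGroup

variable {O U}

/-- the value of an automorphism -/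
def ap (g : Au O U) (X : LA O U) : LA O U :=
  DFunLike.coe (F := LA O U ≃ₗ[O] LA O U) g X

theorem ap_one (X : LA O U) : ap 1 X = X := rfl

theorem ap_mul (g h : Au O U) (X : LA O U) : ap (g * h) X = ap g (ap h X) := rfl

theorem ap_inv (g : Au O U) (X : LA O U) : ap g (ap g⁻¹ X) = X :=
  LinearEquiv.apply_symm_apply (g : LA O U ≃ₗ[O] LA O U) X

theorem ap_inj (g : Au O U) {X Y : LA O U} (h : ap g X = ap g Y) : X = Y :=
  LinearEquiv.injective (g : LA O U ≃ₗ[O] LA O U) h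

variable (O U)

/-- the group of the automorphisms of the Lie algebra `LA O U` with the bracket `br` -/
def AutL : Subgroup (Au O U) where
  carrier := {g | ∀ X Y, ap g (br X Y) = br (ap g X) (ap g Y)}
  one_mem' := fun X Y => by rw [ap_one, ap_one, ap_one]
  mul_mem' := by
    intro g h hg hh X Y
    rw [ap_mul, ap_mul, ap_mul, hh, hg]
  inv_mem' := by
    intro g hg X Y
    apply ap_inj g
    rw [ap_inv, hg, ap_inv, ap_inv]

/-- the group of the automorphisms of the Lie algebra `LA O U` which commute with `tau η l` -/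
def UniL [StarRing O] (η : Oˣ) (l : Fin n → ℤ) : Subgroup (Au O U) where
  carrier := {g | g ∈ AutL O U ∧ ∀ X, ap g (tau η l X) = tau η l (ap g X)}
  one_mem' := ⟨one_mem _, fun X => by rw [ap_one, ap_one]⟩
  mul_mem' := by
    intro g h hg hh
    refine ⟨mul_mem hg.1 hh.1, fun X => ?_⟩
    rw [ap_mul, ap_mul, hh.2, hg.2]
  inv_mem' := by
    intro g hg
    refine ⟨inv_mem hg.1, fun X => ?_⟩
    apply ap_inj g
    rw [ap_inv, hg.2, ap_inv]

variable {O U}

/-- `g` maps each `e_x` to a power of `u` times `e_y`, where the coordinates `C y` are obtained from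
the coordinates `C x` by sign changes which do not depend on `x` -/
def MonL (C : Matrix (Fin m) (Fin n) ℤ) (u : Oˣ) (g : Au O U) : Prop :=
  ∃ δ : Fin m → ℤ, (∀ a, δ a = 1 ∨ δ a = -1) ∧ ∀ x : Rt U, ∃ y : Rt U,
    (∀ a, (C *ᵥ y.1) a = δ a * (C *ᵥ x.1) a) ∧ ∃ k : ℤ, ap g (ev x) = ((u ^ k : Oˣ) : O) • ev y

/-- the subgroup of `Γ` generated by the automorphisms with the property `MonL` -/
def DmL (Γ : Subgroup (Au O U)) (C : Matrix (Fin m) (Fin n) ℤ) (u : Oˣ) : Subgroup Γ :=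
  Subgroup.closure {g | MonL C u g.1}

/-- The automorphism `z`: `h ↦ h`, `e_y ↦ (-1)^((C y)_p) e_y`, belongs to `Γ` and acts trivially in
the situation of `FixZ`, for the subgroup `DmL Γ C u`. -/
def RigL (C : Matrix (Fin m) (Fin n) ℤ) (p : Fin m) (Γ : Subgroup (Au O U)) (u : Oˣ) (N : ℕ) :
    Prop :=
  ∃ z : Γ, (∀ X : LA O U, ap z.1 X = (X.1, fun y => sg ((C *ᵥ y.1) p) * X.2 y)) ∧
    FixZ Γ (DmL Γ C u) z N

theorem AutL_eq : AutL O U = (Ga O U : Subgroup (LA O U ≃ₗ[O] LA O U)) := rfl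

theorem UniL_eq [StarRing O] (η : Oˣ) (l : Fin n → ℤ) :
    UniL O U η l = (Ug O U η l : Subgroup (LA O U ≃ₗ[O] LA O U)) := rfl

theorem MonL_iff (C : Matrix (Fin m) (Fin n) ℤ) (u : Oˣ) (g : Au O U) :
    MonL C u g ↔ Mon C u (g : LA O U ≃ₗ[O] LA O U) := Iff.rfl

theorem DmL_eq (Γ : Subgroup (Au O U)) (C : Matrix (Fin m) (Fin n) ℤ) (u : Oˣ) :
    DmL Γ C u = Dm (Γ : Subgroup (LA O U ≃ₗ[O] LA O U)) C u := rfl

theorem RigL_of (C : Matrix (Fin m) (Fin n) ℤ) (p : Fin m) (Γ : Subgroup (Au O U)) (u : Oˣ) (N : ℕ)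
    (h : Rig O U C p (Γ : Subgroup (LA O U ≃ₗ[O] LA O U)) u N) : RigL C p Γ u N := h

theorem RigL_congr {C : Matrix (Fin m) (Fin n) ℤ} {p q : Fin m}
    (hpq : ∀ i, Even (C p i + C q i)) {Γ : Subgroup (Au O U)} {u : Oˣ} {N : ℕ}
    (h : RigL C p Γ u N) : RigL C q Γ u N := by
  obtain ⟨z, hz, hz'⟩ := h
  refine ⟨z, fun X => ?_, hz'⟩
  rw [hz]
  refine Prod.ext rfl (funext fun y => ?_)
  change sg ((C *ᵥ y.1) p) * X.2 y = sg ((C *ᵥ y.1) q) * X.2 y
  congr 1
  apply sg_congr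
  change Even ((C p) ⬝ᵥ y.1 - (C q) ⬝ᵥ y.1)
  rw [dotProduct, dotProduct, ← Finset.sum_sub_distrib]
  refine Finset.even_sum _ fun i _ => ?_
  obtain ⟨w, hw⟩ := hpq i
  exact ⟨(w - C q i) * y.1 i, by linear_combination y.1 i * hw⟩

end

end Q175.EX
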