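import Pool.Agent.Q175.EX.E6t
import Pool.Agent.Q175.EX.Sta

/-!
# Project EX: the statement for the twisted form of E6
-/

set_option autoImplicit false

namespace Q175.EX

open Matrix

theorem W6_rt {x : Fin 6 → ℤ} (hx : x ∈ Rt (Uc CartanMatrix.E₆)) :
    W6 *ᵥ x ∈ Rt (Uc CartanMatrix.E₆) := (om ℤ).W_rt hx

variable {O : Type} [CommRing O] [StarRing O]

/-- the semilinear map `h ↦ W h*`, `e_x ↦ (-1)^(B_Q x x) e_(W x)`, `B_Q` the bilinear form with
matrix `Q6`, `W = W6` -/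
def tw (X : LA O (Uc CartanMatrix.E₆)) : LA O (Uc CartanMatrix.E₆) :=
  (fun i => ∑ j, ((W6 i j : ℤ) : O) * star (X.1 j),
   fun y => sg (B Q6 (W6 *ᵥ y.1) (W6 *ᵥ y.1)) * star (X.2 ⟨W6 *ᵥ y.1, W6_rt y.2⟩))

theorem tw_eq (X : LA O (Uc CartanMatrix.E₆)) : tw X = (om O).toE (st X) := rfl

variable (O)

/-- the group of the automorphisms of the Lie algebra which commute with `tw` -/
def TwL : Subgroup (Au O (Uc CartanMatrix.E₆)) where
  carrier := {g | g ∈ AutL O (Uc CartanMatrix.E₆) ∧ ∀ X, ap g (tw X) = tw (ap g X)}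
  one_mem' := ⟨one_mem _, fun X => by rw [ap_one, ap_one]⟩
  mul_mem' := by
    intro g h hg hh
    refine ⟨mul_mem hg.1 hh.1, fun X => ?_⟩
    rw [ap_mul, ap_mul, hh.2, hg.2]
  inv_mem' := by
    intro g hg
    refine ⟨inv_mem hg.1, fun X => ?_⟩
    apply ap_inj g
    rw [ap_inv, hg.2, ap_inv]

theorem TwL_eq : TwL O =
    (Ut (om O) : Subgroup (LA O (Uc CartanMatrix.E₆) ≃ₗ[O] LA O (Uc CartanMatrix.E₆))) := rfl

end Q175.EX
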