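import Pool.Agent.Q175.EX.Lie

/-!
# Project EX: torus elements and reflections
-/

set_option autoImplicit false

namespace Q175.EX

open Matrix

section

variable {O : Type} [CommRing O] {n : ℕ} {U : Matrix (Fin n) (Fin n) ℤ}

/-- the basis vector `e_x` -/
noncomputable def ev (x : Rt U) : LA O U :=
  open Classical in (0, fun y => if y = x then 1 else 0)

theorem Mo.toE_ev (g : Mo O U) (x : Rt U) : g.toE (ev x) = (g.c x.1 : O) • ev (g.pe x) := by
  classical
  refine Prod.ext (funext fun i => ?_) (funext fun y => ?_)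
  · change ∑ j, ((g.W i j : ℤ) : O) * 0 = (g.c x.1 : O) * 0
    simp
  · change (g.c (g.W *ᵥ y.1) : O) * (if g.pe y = x then 1 else 0) =
      (g.c x.1 : O) * (if y = g.pe x then 1 else 0)
    by_cases h : y = g.pe x
    · subst h
      rw [if_pos (g.pe_pe x), if_pos rfl]
      have : g.W *ᵥ (g.pe x).1 = x.1 := g.WW x.1
      rw [this]
    · rw [if_neg h, if_neg (fun h' => h (by rw [← h', g.pe_pe]))]
      simp

theorem neg_rt {x : Fin n → ℤ} (hx : x ∈ Rt U) : -x ∈ Rt U := by
  change B U (-x) (-x) = 1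
  rw [B_neg_left, B_neg_right, neg_neg]
  exact hx

theorem zero_not : (0 : Fin n → ℤ) ∉ Rt U := by
  intro h
  change B U 0 0 = 1 at h
  rw [B_zero_left] at h
  exact absurd h (by norm_num)

theorem ex_ev (x : Rt U) (v : Fin n → ℤ) :
    ex (ev (O := O) x).2 v = open Classical in if v = x.1 then 1 else 0 := by
  classical
  by_cases h : v ∈ Rt U
  · rw [ex_of h]
    change (if (⟨v, h⟩ : Rt U) = x then (1 : O) else 0) = _
    by_cases h1 : v = x.1
    · rw [if_pos h1, if_pos (Subtype.ext h1)]
    · rw [if_neg h1, if_neg (fun h' => h1 (congrArg Subtype.val h'))]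
  · rw [ex_not h]
    split_ifs with h1
    · rw [h1] at h
      exact absurd x.2 h
    · rfl

theorem br_ev [Finite (Rt U)] (x : Rt U) :
    br (ev (O := O) x) (ev ⟨-x.1, neg_rt x.2⟩) = (fun i => -(x.1 i : O), 0) := by
  classical
  have := Fintype.ofFinite (Rt U)
  refine Prod.ext (funext fun i => ?_) (funext fun y => ?_)
  · change -∑ᶠ x' : Rt U, (if x' = x then (1 : O) else 0) *
      ex (ev (O := O) ⟨-x.1, neg_rt x.2⟩).2 (-x'.1) * (x'.1 i : O) = -(x.1 i : O)
    rw [finsum_eq_sum_of_fintype, Finset.sum_eq_single x]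
    · rw [if_pos rfl, ex_ev, if_pos rfl, one_mul, one_mul]
    · intro x' _ hx'
      rw [if_neg hx', zero_mul, zero_mul]
    · intro h
      exact absurd (Finset.mem_univ _) h
  · change pr U (0 : Fin n → O) y.1 * _ - pr U (0 : Fin n → O) y.1 * _ +
      ∑ᶠ x' : Rt U, sg (B U x'.1 (y.1 - x'.1)) * (if x' = x then (1 : O) else 0) *
      ex (ev (O := O) ⟨-x.1, neg_rt x.2⟩).2 (y.1 - x'.1) = 0
    have h0 : pr U (0 : Fin n → O) y.1 = 0 := by
      unfold pr
      simp
    rw [h0, zero_mul, zero_mul, sub_zero, zero_add, finsum_eq_sum_of_fintype]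
    apply Finset.sum_eq_zero
    intro x' _
    by_cases hx' : x' = x
    · subst hx'
      have hne : ¬ y.1 - x'.1 = -x'.1 := by
        intro h1
        have h2 : y.1 = 0 := by
          have : y.1 - x'.1 + x'.1 = -x'.1 + x'.1 := congrArg (· + x'.1) h1
          simpa using this
        exact zero_not (h2 ▸ y.2)
      rw [ex_ev, if_neg hne, mul_zero]
    · rw [if_neg hx', mul_zero, zero_mul]

/-- an automorphism is determined by its values on the `e_x` -/
theorem det_ev [Finite (Rt U)] (hU : ∀ j, U j j = 1) (g g' : LA O U ≃ₗ[O] LA O U)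
    (hg : g ∈ Ga O U) (hg' : g' ∈ Ga O U) (h : ∀ x : Rt U, g (ev x) = g' (ev x)) : g = g' := by
  classical
  have := Fintype.ofFinite (Rt U)
  have hroot : ∀ j : Fin n, (Pi.single j 1 : Fin n → ℤ) ∈ Rt U := by
    intro j
    change B U (Pi.single j 1) (Pi.single j 1) = 1
    unfold B
    rw [Finset.sum_eq_single j, Finset.sum_eq_single j]
    · rw [Pi.single_eq_same, hU]; rfl
    · intro k _ hk
      rw [Pi.single_eq_of_ne hk, mul_zero]
    · intro hj; exact absurd (Finset.mem_univ _) hj
    · intro k _ hk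
      apply Finset.sum_eq_zero
      intro l _
      rw [Pi.single_eq_of_ne hk, zero_mul, zero_mul]
    · intro hj; exact absurd (Finset.mem_univ _) hj
  have hc : ∀ j : Fin n, g ((Pi.single j 1 : Fin n → O), 0) = g' ((Pi.single j 1 : Fin n → O), 0) := by
    intro j
    have h1 : (((Pi.single j 1 : Fin n → O), 0) : LA O U) =
        -br (ev (O := O) ⟨_, hroot j⟩) (ev ⟨-(Pi.single j 1 : Fin n → ℤ), neg_rt (hroot j)⟩) := by
      rw [br_ev]
      refine Prod.ext (funext fun i => ?_) (funext fun y => ?_)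
      · change (Pi.single j 1 : Fin n → O) i = - -(((Pi.single j 1 : Fin n → ℤ) i : ℤ) : O)
        rw [neg_neg]
        by_cases hi : i = j
        · subst hi
          simp
        · simp [Pi.single_eq_of_ne hi]
      · change (0 : O) = -0
        rw [neg_zero]
    rw [h1, map_neg, map_neg, hg, hg', h, h]
  ext1 X
  have hX : X = ∑ j, X.1 j • ((Pi.single j 1 : Fin n → O), (0 : Rt U → O)) +
      ∑ x : Rt U, X.2 x • ev (O := O) x := by
    refine Prod.ext (funext fun i => ?_) (funext fun y => ?_)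
    · rw [Prod.fst_add, Pi.add_apply, Prod.fst_sum, Prod.fst_sum, Finset.sum_apply,
        Finset.sum_apply]
      have e1 : ∑ c : Rt U, (X.2 c • ev (O := O) c).1 i = 0 := by
        apply Finset.sum_eq_zero
        intro c _
        change X.2 c * 0 = 0
        rw [mul_zero]
      have e2 : ∑ c, (X.1 c • ((Pi.single c 1 : Fin n → O), (0 : Rt U → O))).1 i = X.1 i := by
        rw [Finset.sum_eq_single i]
        · change X.1 i * (Pi.single i 1 : Fin n → O) i = X.1 i
          rw [Pi.single_eq_same, mul_one]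
        · intro c _ hc
          change X.1 c * (Pi.single c 1 : Fin n → O) i = 0
          rw [Pi.single_eq_of_ne hc.symm, mul_zero]
        · intro hj; exact absurd (Finset.mem_univ _) hj
      rw [e1, e2, add_zero]
    · rw [Prod.snd_add, Pi.add_apply, Prod.snd_sum, Prod.snd_sum, Finset.sum_apply,
        Finset.sum_apply]
      have e1 : ∑ c, (X.1 c • ((Pi.single c 1 : Fin n → O), (0 : Rt U → O))).2 y = 0 := by
        apply Finset.sum_eq_zero
        intro c _
        change X.1 c * 0 = 0
        rw [mul_zero]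
      have e2 : ∑ c : Rt U, (X.2 c • ev (O := O) c).2 y = X.2 y := by
        rw [Finset.sum_eq_single y]
        · change X.2 y * (if y = y then (1 : O) else 0) = X.2 y
          rw [if_pos rfl, mul_one]
        · intro c _ hc
          change X.2 c * (if y = c then (1 : O) else 0) = 0
          rw [if_neg hc.symm, mul_zero]
        · intro hj; exact absurd (Finset.mem_univ _) hj
      rw [e1, e2, zero_add]
  rw [hX, map_add, map_add, map_sum, map_sum, map_sum, map_sum]
  congr 1
  · exact Finset.sum_congr rfl fun j _ => by rw [map_smul, map_smul, hc]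
  · exact Finset.sum_congr rfl fun x _ => by rw [map_smul, map_smul, h]

/-- torus elements: `e_x` is multiplied by `u^(l x)` -/
def tor (u : Oˣ) (l : Fin n → ℤ) : Mo O U where
  W := 1
  inv := one_mul 1
  iso := fun x y => by rw [Matrix.one_mulVec, Matrix.one_mulVec]
  c := fun x => u ^ (l ⬝ᵥ x)
  coc := fun x y => by
    rw [Matrix.one_mulVec, Matrix.one_mulVec, dotProduct_add, _root_.zpow_add, Units.val_mul]

theorem tor_ev (u : Oˣ) (l : Fin n → ℤ) (x : Rt U) :
    (tor (U := U) u l).toE (ev x) = ((u ^ (l ⬝ᵥ x.1) : Oˣ) : O) • ev x := by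
  rw [Mo.toE_ev]
  have h1 : (tor (U := U) u l).pe x = x := Subtype.ext (Matrix.one_mulVec x.1)
  rw [h1]
  rfl

/-- the symmetric form -/
def Sf (U : Matrix (Fin n) (Fin n) ℤ) (x y : Fin n → ℤ) : ℤ := B U x y + B U y x

/-- the matrix of a reflection -/
def rW (U : Matrix (Fin n) (Fin n) ℤ) (β : Fin n → ℤ) : Matrix (Fin n) (Fin n) ℤ :=
  1 - Matrix.of fun i j => β i * ∑ k, (U j k + U k j) * β k

theorem rW_mulVec (β x : Fin n → ℤ) : rW U β *ᵥ x = x - Sf U x β • β := by
  unfold rW
  rw [Matrix.sub_mulVec, Matrix.one_mulVec]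
  congr 1
  funext i
  change ∑ j, (β i * ∑ k, (U j k + U k j) * β k) * x j = (B U x β + B U β x) * β i
  unfold B
  rw [Finset.sum_comm (f := fun i j => β i * U i j * x j), ← Finset.sum_add_distrib, Finset.sum_mul]
  refine Finset.sum_congr rfl fun j _ => ?_
  rw [← Finset.sum_add_distrib, Finset.sum_mul, Finset.mul_sum, Finset.sum_mul]
  refine Finset.sum_congr rfl fun k _ => ?_
  ring

theorem Sf_comm (x y : Fin n → ℤ) : Sf U x y = Sf U y x := add_comm _ _

theorem Sf_self {β : Fin n → ℤ} (hβ : β ∈ Rt U) : Sf U β β = 2 := by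
  change B U β β = 1 at hβ
  unfold Sf
  rw [hβ]
  norm_num

/-- the reflection in a root, lifted to the Lie algebra -/
def rf (β : Rt U) : Mo O U where
  W := rW U β.1
  inv := by
    have h : ∀ x, (rW U β.1 * rW U β.1) *ᵥ x = (1 : Matrix (Fin n) (Fin n) ℤ) *ᵥ x := by
      intro x
      rw [← Matrix.mulVec_mulVec, rW_mulVec, rW_mulVec, Matrix.one_mulVec]
      have h1 : Sf U (x - Sf U x β.1 • β.1) β.1 = -Sf U x β.1 := by
        have h2 := Sf_self β.2
        unfold Sf at h2 ⊢
        rw [B_sub_left, B_sub_right, B_smul_left, B_smul_right]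
        linear_combination (-(B U x β.1 + B U β.1 x)) * h2
      rw [h1]
      module
    ext i j
    have := congrFun (h (Pi.single j 1)) i
    rwa [Matrix.mulVec_single_one, Matrix.mulVec_single_one] at this
  iso := fun x y => by
    have h2 := Sf_self β.2
    rw [rW_mulVec, rW_mulVec]
    unfold Sf at h2 ⊢
    simp only [B_sub_left, B_sub_right, B_smul_left, B_smul_right]
    linear_combination ((B U x β.1 + B U β.1 x) * (B U y β.1 + B U β.1 y)) * h2
  c := fun x => sgu (Sf U x β.1 * B U β.1 x)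
  coc := fun x y => by
    have h2 : B U β.1 β.1 = 1 := β.2
    change (sg (Sf U (x + y) β.1 * B U β.1 (x + y)) : O) * sg (B U x y) =
      sg (Sf U x β.1 * B U β.1 x) * sg (Sf U y β.1 * B U β.1 y) *
      sg (B U (rW U β.1 *ᵥ x) (rW U β.1 *ᵥ y))
    rw [← sg_add, ← sg_add, ← sg_add]
    apply sg_congr
    rw [rW_mulVec, rW_mulVec]
    unfold Sf
    simp only [B_sub_left, B_sub_right, B_smul_left, B_smul_right, B_add_left, B_add_right]
    refine ⟨(B U x β.1 + B U β.1 x) * B U β.1 y, ?_⟩
    rw [h2]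
    ring

theorem rf_ev (β x : Rt U) : (rf (O := O) β).toE (ev x) =
    (sg (Sf U x.1 β.1 * B U β.1 x.1) : O) • ev ((rf (O := O) β).pe x) := by
  rw [Mo.toE_ev]
  rfl

theorem rf_pe (β x : Rt U) : ((rf (O := O) β).pe x).1 = x.1 - Sf U x.1 β.1 • β.1 :=
  rW_mulVec β.1 x.1

end

end Q175.EX
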