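import Pool.Agent.Q175.EX.Mon

/-!
# Project EX: unitary groups (real forms)
-/

set_option autoImplicit false

namespace Q175.EX

open Matrix

section

variable {O : Type} [CommRing O] [StarRing O] {n m : ℕ} {U : Matrix (Fin n) (Fin n) ℤ}

/-- the semilinear involution: `h ↦ -h*` on the Cartan part, `e_x ↦ η^(l x) e_(-x)` -/
def tau (η : Oˣ) (l : Fin n → ℤ) (X : LA O U) : LA O U :=
  (fun i => -star (X.1 i), fun y => ((η ^ (-(l ⬝ᵥ y.1)) : Oˣ) : O) * star (X.2 ⟨-y.1, neg_rt y.2⟩))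

/-- the automorphisms which commute with the semilinear involution `tau η l` -/
def Ug (O : Type) [CommRing O] [StarRing O] {n : ℕ} (U : Matrix (Fin n) (Fin n) ℤ) (η : Oˣ)
    (l : Fin n → ℤ) : Subgroup (LA O U ≃ₗ[O] LA O U) where
  carrier := {g | g ∈ Ga O U ∧ ∀ X, g (tau η l X) = tau η l (g X)}
  one_mem' := ⟨one_mem _, fun X => rfl⟩
  mul_mem' := by
    intro g h hg hh
    refine ⟨mul_mem hg.1 hh.1, fun X => ?_⟩
    change g (h (tau η l X)) = tau η l (g (h X))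
    rw [hh.2, hg.2]
  inv_mem' := by
    intro g hg
    refine ⟨inv_mem hg.1, fun X => ?_⟩
    have h1 : ∀ Z, g (g⁻¹ Z) = Z := fun Z => LinearEquiv.apply_symm_apply g Z
    apply g.injective
    rw [h1, hg.2, h1]

theorem Ug_le (η : Oˣ) (l : Fin n → ℤ) : Ug O U η l ≤ Ga O U := fun _ hg => hg.1

theorem Mo.mem_Ug [Finite (Rt U)] (g : Mo O U) (η : Oˣ) (l : Fin n → ℤ)
    (hl : ∀ x, l ⬝ᵥ (g.W *ᵥ x) = l ⬝ᵥ x) (hc : ∀ x, star (g.c (-x) : O) = g.c x) :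
    g.toE ∈ Ug O U η l := by
  refine ⟨g.toE_mem, fun X => ?_⟩
  refine Prod.ext (funext fun i => ?_) (funext fun y => ?_)
  · change ∑ j, ((g.W i j : ℤ) : O) * -star (X.1 j) = -star (∑ j, ((g.W i j : ℤ) : O) * X.1 j)
    rw [star_sum, ← Finset.sum_neg_distrib]
    refine Finset.sum_congr rfl fun j _ => ?_
    rw [star_mul', star_intCast, mul_neg]
  · change (g.c (g.W *ᵥ y.1) : O) * (((η ^ (-(l ⬝ᵥ (g.W *ᵥ y.1))) : Oˣ) : O) *
      star (X.2 ⟨-(g.pe y).1, neg_rt (g.pe y).2⟩)) =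
      ((η ^ (-(l ⬝ᵥ y.1)) : Oˣ) : O) * star ((g.c (g.W *ᵥ (-y.1)) : O) *
        X.2 (g.pe ⟨-y.1, neg_rt y.2⟩))
    have h1 : (⟨-(g.pe y).1, neg_rt (g.pe y).2⟩ : Rt U) = g.pe ⟨-y.1, neg_rt y.2⟩ :=
      Subtype.ext (Matrix.mulVec_neg y.1 g.W).symm
    rw [star_mul', hl, h1, Matrix.mulVec_neg, hc]
    ring

theorem tor_mem_Ug [Finite (Rt U)] (u : Oˣ) (l' : Fin n → ℤ) (hu : star (u : O) * u = 1)
    (η : Oˣ) (l : Fin n → ℤ) : (tor (U := U) u l').toE ∈ Ug O U η l := by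
  refine Mo.mem_Ug _ η l (fun x => ?_) (fun x => ?_)
  · change l ⬝ᵥ ((1 : Matrix (Fin n) (Fin n) ℤ) *ᵥ x) = _
    rw [Matrix.one_mulVec]
  · change star ((u ^ (l' ⬝ᵥ (-x)) : Oˣ) : O) = ((u ^ (l' ⬝ᵥ x) : Oˣ) : O)
    have h1 : star u = u⁻¹ := by
      apply eq_inv_of_mul_eq_one_left
      apply Units.ext
      rw [Units.val_mul, Units.coe_star, hu, Units.val_one]
    rw [← Units.coe_star, star_zpow, h1, dotProduct_neg, _root_.inv_zpow', neg_neg]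

theorem rf_mem_Ug [Finite (Rt U)] (β : Rt U) (η : Oˣ) (l : Fin n → ℤ) (hl : l ⬝ᵥ β.1 = 0) :
    (rf (O := O) β).toE ∈ Ug O U η l := by
  refine Mo.mem_Ug _ η l (fun x => ?_) (fun x => ?_)
  · change l ⬝ᵥ (rW U β.1 *ᵥ x) = _
    rw [rW_mulVec, dotProduct_sub, dotProduct_smul, hl, smul_zero, sub_zero]
  · change star (sg (Sf U (-x) β.1 * B U β.1 (-x)) : O) = sg (Sf U x β.1 * B U β.1 x)
    have h1 : Sf U (-x) β.1 * B U β.1 (-x) = Sf U x β.1 * B U β.1 x := by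
      unfold Sf
      rw [B_neg_left, B_neg_right]
      ring
    rw [h1]
    unfold sg
    split_ifs
    · exact star_one O
    · rw [star_neg, star_one]

end

end Q175.EX
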